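import Pool.Agent.W5h77.Sg.Norm

/-!
Certificates for norms: on a family of `pieces' (partial functions with positive domain) the
norms are the unique solution of a recursion, and are an initial segment of the ordinals.
-/

namespace Pool.Agent.W5h77.Sg

universe u v w

open Set Cardinal Ordinal

/-- A family of pieces, indexed by `D`. -/
structure Pieces {M : Type u} (I : Set (Set M)) (Q : M → Type u) (D : Type w) where
  dom : D → Set M
  val : D → ∀ i, Q i
  pos : ∀ d, dom d ∉ I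
  restr : ∀ d Z, Z ⊆ dom d → Z ∉ I → ∃ d', dom d' = Z ∧ ∀ i ∈ Z, val d' i = val d i
  part : ∀ (X : Set M) (δ : ∀ i, Q i), ∃ C, Cover I X C ∧
    ∀ Y ∈ C, ∃ d, dom d = Y ∧ ∀ i ∈ Y, val d i = δ i

section

variable {M V : Type u} [LinearOrder V] {I : Set (Set M)} {Q : M → Type u} {D : Type w}

/-- The function coded by the piece `d` through the coding `c`. -/
def fn (S : Pieces I Q D) (c : ∀ i, Q i → V) (d : D) : M → V := fun i => c i (S.val d i)

/-- The ranges of the coding functions are downward closed. -/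
def DC (c : ∀ i, Q i → V) : Prop := ∀ i q v, v < c i q → ∃ q', c i q' = v

/-- The recursion step. -/
def Phi (S : Pieces I Q D) (c : ∀ i, Q i → V) (r : D → Ordinal.{u}) (γ : Ordinal.{u}) (d : D) :
    Prop :=
  ∃ C, Cover I (S.dom d) C ∧ ∀ Y ∈ C, ∃ d', S.dom d' = Y ∧
    (∀ i ∈ Y, c i (S.val d' i) < c i (S.val d i)) ∧ γ ≤ r d'

/-- The recursion characterising the norms. -/
def Rec (S : Pieces I Q D) (c : ∀ i, Q i → V) (r : D → Ordinal.{u}) : Prop :=
  ∀ d, (∀ γ < r d, Phi S c r γ d) ∧ ¬ Phi S c r (r d) d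

variable {S : Pieces I Q D} {c : ∀ i, Q i → V} {r : D → Ordinal.{u}} {γ : Ordinal.{u}}

open Classical in
theorem to_pieces (hI : SIdeal I) (hc : DC c) {d : D} {g : M → V}
    (hg : Lt I (S.dom d) g (fn S c d)) :
    ∃ C, Cover I (S.dom d) C ∧ ∀ Y ∈ C, ∃ d', S.dom d' = Y ∧
      (∀ i ∈ Y, c i (S.val d' i) = g i) ∧ (∀ i ∈ Y, g i < fn S c d i) := by
  have h1 : ∀ i, ∃ q : Q i, g i < fn S c d i → c i q = g i := by
    intro i
    by_cases h : g i < fn S c d i
    · obtain ⟨q, hq⟩ := hc i _ _ h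
      exact ⟨q, fun _ => hq⟩
    · exact ⟨S.val d i, fun h' => absurd h' h⟩
  choose δ hδ using h1
  let X' : Set M := {i | i ∈ S.dom d ∧ g i < fn S c d i}
  obtain ⟨C, hC, hP⟩ := S.part X' δ
  refine ⟨C, ⟨?_, hC.pos, hC.disj, ?_⟩, ?_⟩
  · intro Y hY i hi
    exact (hC.sub Y hY hi).1
  · intro N hN hN2
    have h2 : N ∩ X' ∈ I := by
      refine hC.null _ inter_subset_right ?_
      intro Y hY
      refine hI.mono ?_ (hN2 Y hY)
      rintro i ⟨⟨h2, _⟩, h3⟩
      exact ⟨h2, h3⟩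
    refine hI.mono ?_ (hI.union h2 hg)
    intro i hi
    by_cases h3 : g i < fn S c d i
    · exact Or.inl ⟨hi, hN hi, h3⟩
    · exact Or.inr ⟨hN hi, h3⟩
  · intro Y hY
    obtain ⟨d', h3, h4⟩ := hP Y hY
    refine ⟨d', h3, ?_, ?_⟩
    · intro i hi
      rw [h4 i hi]
      exact hδ i (hC.sub Y hY hi).2
    · intro i hi
      exact (hC.sub Y hY hi).2

open Classical in
/-- Gluing the pieces given by `Phi`. -/
theorem of_phi (hI : SIdeal I) {d : D} (h : Phi S c r γ d)
    (hr : ∀ d', γ ≤ r d' → Ge I (S.dom d') γ (fn S c d')) :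
    ∃ g, Lt I (S.dom d) g (fn S c d) ∧ Ge I (S.dom d) γ g := by
  obtain ⟨C, hC, hP⟩ := h
  have h1 : ∀ Y : C, ∃ d', S.dom d' = Y.1 ∧
    (∀ i ∈ Y.1, c i (S.val d' i) < c i (S.val d i)) ∧ γ ≤ r d' := fun Y => hP Y.1 Y.2
  choose e he1 he2 he3 using h1
  let g : M → V := fun i => if h : ∃ Y : C, i ∈ Y.1 then fn S c (e h.choose) i else fn S c d i
  have hgY : ∀ Y : C, ∀ i ∈ Y.1, g i = fn S c (e Y) i := by
    intro Y i hi
    have h : ∃ Y : C, i ∈ Y.1 := ⟨Y, hi⟩
    have h2 : h.choose = Y := Subtype.ext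
      (hC.disj _ h.choose.2 _ Y.2 i h.choose_spec hi)
    simp only [g, dif_pos h, h2]
  refine ⟨g, ?_, glue hI hC ?_⟩
  · refine hC.null _ (fun i hi => hi.1) ?_
    intro Y hY
    convert hI.empty
    rw [eq_empty_iff_forall_notMem]
    rintro i ⟨⟨_, h2⟩, h3⟩
    apply h2
    rw [hgY ⟨Y, hY⟩ i h3]
    exact he2 ⟨Y, hY⟩ i h3
  · intro Y hY
    have h2 := hr _ (he3 ⟨Y, hY⟩)
    rw [he1 ⟨Y, hY⟩] at h2
    refine ge_mono_fun hI ?_ h2
    intro i hi
    rw [hgY ⟨Y, hY⟩ i hi]

theorem rec_low (hI : SIdeal I) (h : Rec S c r) : ∀ d, γ ≤ r d → Ge I (S.dom d) γ (fn S c d) := by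
  induction γ using WellFoundedLT.induction with
  | ind γ ih =>
    intro d hd
    rw [ge_iff]
    intro δ hδ
    exact of_phi hI ((h d).1 δ (hδ.trans_le hd)) (ih δ hδ)

theorem rec_up (hI : SIdeal I) (hc : DC c) (h : Rec S c r) :
    ∀ d, r d = γ → ¬ Ge I (S.dom d) (γ + 1) (fn S c d) := by
  induction γ using WellFoundedLT.induction with
  | ind γ ih =>
    intro d hd hge
    rw [ge_iff] at hge
    obtain ⟨g, h1, h2⟩ := hge γ (lt_add_one γ)
    obtain ⟨C, hC, hP⟩ := to_pieces hI hc h1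
    apply (h d).2
    refine ⟨C, hC, ?_⟩
    intro Y hY
    obtain ⟨d', h3, h4, h5⟩ := hP Y hY
    refine ⟨d', h3, ?_, ?_⟩
    · intro i hi
      rw [h4 i hi]
      exact h5 i hi
    · rw [hd]
      by_contra hlt
      rw [not_le] at hlt
      apply ih (r d') hlt d' rfl
      have h6 : Ge I Y γ g := ge_subset hI (hC.sub Y hY) h2
      rw [h3]
      refine ge_mono_ord (ge_mono_fun hI ?_ h6) (Order.add_one_le_of_lt hlt)
      intro i hi
      exact (h4 i hi).ge

variable [WellFoundedLT V]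

/-- Uniqueness of certificates. -/
theorem rec_unique (hI : SIdeal I) (hc : DC c) (h : Rec S c r) (d : D) :
    r d = nrm I (S.dom d) (fn S c d) := by
  apply le_antisymm
  · rw [le_nrm_iff hI (S.pos d)]
    exact rec_low hI h d le_rfl
  · rw [← Order.lt_add_one_iff, nrm_lt_iff hI (S.pos d)]
    exact rec_up hI hc h d rfl

/-- Existence of certificates. -/
theorem rec_exists (hI : SIdeal I) (hc : DC c) :
    Rec S c (fun d => nrm I (S.dom d) (fn S c d)) := by
  intro d
  constructor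
  · intro γ hγ
    have h1 := (nrm_spec hI (S.pos d) (fn S c d)).1
    rw [ge_iff] at h1
    obtain ⟨g, h2, h3⟩ := h1 γ hγ
    obtain ⟨C, hC, hP⟩ := to_pieces hI hc h2
    refine ⟨C, hC, ?_⟩
    intro Y hY
    obtain ⟨d', h4, h5, h6⟩ := hP Y hY
    refine ⟨d', h4, ?_, ?_⟩
    · intro i hi
      rw [h5 i hi]
      exact h6 i hi
    · rw [le_nrm_iff hI (S.pos d'), h4]
      refine ge_mono_fun hI ?_ (ge_subset hI (hC.sub Y hY) h3)
      intro i hi
      exact (h5 i hi).ge
  · intro hp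
    obtain ⟨g, h1, h2⟩ := of_phi hI hp (fun d' h => (le_nrm_iff hI (S.pos d')).1 h)
    exact absurd (nrm_lt_of_lt hI (S.pos d) h1)
      (not_lt.2 ((le_nrm_iff hI (S.pos d)).2 h2))

/-- The norms of pieces form an initial segment of the ordinals. -/
theorem nrm_piece_down (hI : SIdeal I) (hc : DC c) {d : D}
    (h : γ < nrm I (S.dom d) (fn S c d)) : ∃ d', nrm I (S.dom d') (fn S c d') = γ := by
  obtain ⟨g, h1, h2⟩ := exists_nrm_eq hI (S.pos d) h
  obtain ⟨C, hC, hP⟩ := to_pieces hI hc h1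
  by_contra hcon
  push Not at hcon
  have h3 : Ge I (S.dom d) (γ + 1) g := by
    refine glue hI hC ?_
    intro Y hY
    obtain ⟨d', h4, h5, h6⟩ := hP Y hY
    have h7 : γ ≤ nrm I Y g := by
      rw [← h2]
      exact nrm_mono_set hI (hC.pos Y hY) (hC.sub Y hY)
    have h8 : nrm I (S.dom d') (fn S c d') = nrm I Y g := by
      rw [h4]
      exact nrm_congr hI (hC.pos Y hY) h5
    rw [← le_nrm_iff hI (hC.pos Y hY), Order.add_one_le_iff]
    refine lt_of_le_of_ne h7 ?_
    intro h9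
    exact hcon d' (by rw [h8, ← h9])
  rw [← le_nrm_iff hI (S.pos d), h2] at h3
  exact absurd (lt_add_one γ) (not_lt.2 h3)

end

section

variable {M V : Type u} [LinearOrder V] [WellFoundedLT V] {I : Set (Set M)} {Q : M → Type u}
  {D : Type u} {S : Pieces I Q D} {c : ∀ i, Q i → V}

theorem nrm_lt_ord (hI : SIdeal I) (hc : DC c) {κ : Cardinal.{u}} (hD : #D < κ) (d : D) :
    nrm I (S.dom d) (fn S c d) < κ.ord := by
  by_contra hcon
  rw [not_lt] at hcon
  have h1 : ∀ γ : Iio κ.ord, ∃ d' : D, nrm I (S.dom d') (fn S c d') = γ.1 := by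
    intro γ
    exact nrm_piece_down hI hc (γ.2.trans_le hcon)
  choose e he using h1
  have hinj : Function.Injective e := by
    intro a b hab
    apply Subtype.ext
    rw [← he a, ← he b, hab]
  have h2 := mk_le_of_injective (f := (fun x => ULift.up (e x) : Iio κ.ord → ULift.{u+1} D)) (by
    intro a b hab
    exact hinj (ULift.up_injective hab))
  rw [Cardinal.mk_Iio_ordinal, card_ord, mk_uLift, Cardinal.lift_le] at h2
  exact absurd hD (not_lt.2 h2)

end

end Pool.Agent.W5h77.Sg
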