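import Pool.Agent.W5h77.Sg.Setup

/-!
The colouring and its definition.
-/

namespace Pool.Agent.W5h77.Sg

universe u v w

open Set Cardinal Ordinal

section

variable {M L : Type u} [LinearOrder M] [WellFoundedLT M] [LinearOrder L] [WellFoundedLT L]
  {Λ : M → L} (S : Pieces (NS M) (fun i => Iio (Λ i)) L) (pt : L ≃ Σ i, Iio (Λ i))
  (φ : ∀ i, L → Set (Iio (Λ i))) (decK : L → Set (Set M) × L × Bool) (decS : L → Set (Set M))
  (decT : L → Set M)

def rA1 (z x : L) : Prop :=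
  ClosedJ (NS M) (decK z).1 ∧ S.dom x ⊆ S.dom (decK z).2.1 ∧ S.dom x ∉ (decK z).1
def rA2 (z x e : L) : Prop :=
  S.dom e ⊆ S.dom x ∧ (∀ i ∈ S.dom e, S.val e i = S.val x i) ∧ S.dom e ∉ (decK z).1
def rA3 (z p v : L) : Prop := (S.val (decK z).2.1 (pt p).1 ∈ φ (pt p).1 v ↔ (decK z).2.2 = true)
def rA4 (x p : L) : Prop := (pt p).1 ∈ S.dom x ∧ S.val x (pt p).1 = (pt p).2
def rA5 (p q : L) : Prop := (pt p).1 = (pt q).1
def rA6 (x s : L) : Prop := Cover (NS M) (S.dom x) (decS s)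
def rA7 (s t : L) : Prop := decT t ∈ decS s
def rA8 (e t : L) : Prop := S.dom e = decT t

/-- The coding functions given by a function on the points. -/
def cc (c : L → L) : ∀ i, Iio (Λ i) → L := fun i q => c (pt.symm ⟨i, q⟩)

variable {S pt φ decK decS decT} {c : L → L} {r : L → Ordinal.{u}} {γ β : Ordinal.{u}}

omit [WellFoundedLT M] [WellFoundedLT L] in
theorem rA4_symm (x : L) (i : M) (q : Iio (Λ i)) :
    rA4 S pt x (pt.symm ⟨i, q⟩) ↔ i ∈ S.dom x ∧ S.val x i = q := by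
  have h : ∀ s : Σ i, Iio (Λ i), s = ⟨i, q⟩ →
      ((s.1 ∈ S.dom x ∧ S.val x s.1 = s.2) ↔ (i ∈ S.dom x ∧ S.val x i = q)) := by
    rintro _ rfl; rfl
  exact h _ (pt.apply_symm_apply _)

omit [WellFoundedLT M] [WellFoundedLT L] in
theorem rA3_symm (z : L) (i : M) (q : Iio (Λ i)) (v : L) :
    rA3 S pt φ decK z (pt.symm ⟨i, q⟩) v ↔
      (S.val (decK z).2.1 i ∈ φ i v ↔ (decK z).2.2 = true) := by
  have h : ∀ s : Σ i, Iio (Λ i), s = ⟨i, q⟩ →
      ((S.val (decK z).2.1 s.1 ∈ φ s.1 v ↔ (decK z).2.2 = true) ↔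
        (S.val (decK z).2.1 i ∈ φ i v ↔ (decK z).2.2 = true)) := by
    rintro _ rfl; rfl
  exact h _ (pt.apply_symm_apply _)

omit [WellFoundedLT M] [WellFoundedLT L] in
theorem dc_iff : DCL (rA5 pt) c ↔ DC (cc pt c) := by
  unfold DCL DC rA5 cc
  constructor
  · intro h i q v hv
    obtain ⟨q2, h1, h2⟩ := h _ v hv
    obtain ⟨⟨j, q'⟩, rfl⟩ := pt.symm.surjective q2
    simp only [Equiv.apply_symm_apply] at h1
    subst h1
    exact ⟨q', h2⟩
  · intro h p v hv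
    obtain ⟨⟨i, q⟩, rfl⟩ := pt.symm.surjective p
    obtain ⟨q', h1⟩ := h i q v hv
    exact ⟨pt.symm ⟨i, q'⟩, by simp, h1⟩

omit [WellFoundedLT M] [WellFoundedLT L] in
theorem lt_iff (e x : L) : LtL (rA4 S pt) (rA5 pt) c e x ↔
    ∀ i ∈ S.dom e, i ∈ S.dom x → cc pt c i (S.val e i) < cc pt c i (S.val x i) := by
  unfold LtL cc
  constructor
  · intro h i h1 h2
    refine h _ _ ((rA4_symm _ _ _).2 ⟨h1, rfl⟩) ((rA4_symm _ _ _).2 ⟨h2, rfl⟩) ?_
    simp [rA5]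
  · intro h p q h1 h2 h3
    obtain ⟨⟨i, p⟩, rfl⟩ := pt.symm.surjective p
    obtain ⟨⟨j, q⟩, rfl⟩ := pt.symm.surjective q
    rw [rA4_symm] at h1 h2
    simp only [rA5, Equiv.apply_symm_apply] at h3
    subst h3
    obtain ⟨h4, rfl⟩ := h1
    obtain ⟨h5, rfl⟩ := h2
    exact h i h4 h5

omit [WellFoundedLT M] [WellFoundedLT L] in
theorem phi_iff (hS : Function.Surjective decS) (hT : Function.Surjective decT) (x : L) :
    PhiL (rA4 S pt) (rA5 pt) (rA6 S decS) (rA7 decS decT) (rA8 S decT) c r γ x ↔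
      Phi S (cc pt c) r γ x := by
  unfold PhiL Phi
  simp only [lt_iff]
  unfold rA6 rA7 rA8
  constructor
  · rintro ⟨s, h1, h2⟩
    refine ⟨decS s, h1, ?_⟩
    intro Y hY
    obtain ⟨t, rfl⟩ := hT Y
    obtain ⟨e, h3, h4, h5⟩ := h2 t hY
    refine ⟨e, h3, ?_, h5⟩
    intro i hi
    exact h4 i (by rwa [h3]) (h1.sub _ hY hi)
  · rintro ⟨C, h1, h2⟩
    obtain ⟨s, rfl⟩ := hS C
    refine ⟨s, h1, ?_⟩
    intro t ht
    obtain ⟨e, h3, h4, h5⟩ := h2 _ ht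
    refine ⟨e, h3, ?_, h5⟩
    intro i hi _
    exact h4 i (by rwa [← h3])

omit [WellFoundedLT M] [WellFoundedLT L] in
theorem recL_iff (hS : Function.Surjective decS) (hT : Function.Surjective decT) :
    RecL (rA4 S pt) (rA5 pt) (rA6 S decS) (rA7 decS decT) (rA8 S decT) c r ↔
      Rec S (cc pt c) r := by
  unfold RecL Rec
  simp only [phi_iff hS hT]

omit [WellFoundedLT M] [WellFoundedLT L] in
theorem inGL_iff (z : L) :
    InGL (rA1 S decK) (rA2 S decK) (rA3 S pt φ decK) (rA4 S pt) c r β z ↔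
      InG S φ (cc pt c) r β (decK z) := by
  unfold InGL InG rA1 rA2 cc
  constructor
  · rintro ⟨x, ⟨h1, h2, h3⟩, h4, h5⟩
    refine ⟨h1, x, h2, h3, ?_, ?_⟩
    · intro η h6 h7 h8
      exact h4 η ⟨h6, h7, h8⟩
    · intro i hi
      have h6 := h5 (pt.symm ⟨i, S.val x i⟩) ((rA4_symm _ _ _).2 ⟨hi, rfl⟩)
      rwa [rA3_symm] at h6
  · rintro ⟨h1, x, h2, h3, h4, h5⟩
    refine ⟨x, ⟨h1, h2, h3⟩, ?_, ?_⟩
    · rintro e ⟨h6, h7, h8⟩
      exact h4 e h6 h7 h8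
    · intro p h6
      obtain ⟨⟨i, p⟩, rfl⟩ := pt.symm.surjective p
      rw [rA4_symm] at h6
      rw [rA3_symm]
      obtain ⟨h7, rfl⟩ := h6
      exact h5 i h7

end

section

variable {lam : Cardinal.{u}} {M : Type u} [LinearOrder M] [WellFoundedLT M]
  {Λ : M → lam.ord.ToType} {S : Pieces (NS M) (fun i => Iio (Λ i)) lam.ord.ToType}
  {pt : lam.ord.ToType ≃ Σ i, Iio (Λ i)} {φ : ∀ i, lam.ord.ToType → Set (Iio (Λ i))}
  {decK : lam.ord.ToType → Set (Set M) × lam.ord.ToType × Bool}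
  {decS : lam.ord.ToType → Set (Set M)} {decT : lam.ord.ToType → Set M}
  {t : lam.ord.ToType}

/-- A certificate above `β`. -/
def IsCert (S : Pieces (NS M) (fun i => Iio (Λ i)) lam.ord.ToType)
    (pt : lam.ord.ToType ≃ Σ i, Iio (Λ i)) (t : lam.ord.ToType) (β : Ordinal.{u})
    (c : lam.ord.ToType → lam.ord.ToType) (r : lam.ord.ToType → Ordinal.{u}) : Prop :=
  DC (cc pt c) ∧ Rec S (cc pt c) r ∧ (∀ x, r x < (Order.succ lam).ord) ∧ β < r t

theorem exists_cert (hM : RegIdx M) (hlam : ℵ₀ ≤ lam) (hΛ : Cofn Λ)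
    (hinf : ∀ i, ℵ₀ ≤ #(Iio (Λ i))) (ht : S.dom t = Set.univ)
    (ht2 : ∀ i, S.val t i = hΛ.dflt i) (β : Ordinal.{u}) (hβ : β < (Order.succ lam).ord) :
    ∃ c r, IsCert S pt t β c r := by
  have hcard : #(lam.ord.ToType) = lam := mk_ord_toType lam
  have hβ1 : β + 1 < (Order.succ #(lam.ord.ToType)).ord := by
    rw [hcard]
    exact (isSuccLimit_ord (hlam.trans (Order.le_succ lam))).add_one_lt hβ
  obtain ⟨x, hx1, hx2⟩ := exists_ge (L := lam.ord.ToType) hM hΛ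
    (fun l => by rw [hcard]; exact mk_Iio_toType_ord_lt l) hinf (β + 1) hβ1
  obtain ⟨c0, hc1, hc2⟩ := exists_code hΛ hinf x hx1
  let c : lam.ord.ToType → lam.ord.ToType := fun p => c0 (pt p).1 (pt p).2
  have hc : cc pt c = c0 := by
    funext i q
    simp only [cc, c]
    rw [Equiv.apply_symm_apply]
  have hI := NS.sideal hM
  refine ⟨c, fun d => nrm (NS M) (S.dom d) (fn S c0 d), ?_, ?_, ?_, ?_⟩
  · rw [hc]; exact hc1
  · rw [hc]; exact rec_exists hI hc1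
  · intro d
    exact nrm_lt_ord hI hc1 (by rw [hcard]; exact Order.lt_succ lam) d
  · rw [← Order.add_one_le_iff, le_nrm_iff hI (S.pos t), ht]
    refine ge_mono_fun hI ?_ hx2
    intro i _
    simp only [fn, ht2 i, hc2 i]
    exact le_rfl

/-- The set attached to `β`. -/
def GG (S : Pieces (NS M) (fun i => Iio (Λ i)) lam.ord.ToType)
    (pt : lam.ord.ToType ≃ Σ i, Iio (Λ i)) (φ : ∀ i, lam.ord.ToType → Set (Iio (Λ i)))
    (decK : lam.ord.ToType → Set (Set M) × lam.ord.ToType × Bool) (t : lam.ord.ToType)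
    (β : Ordinal.{u}) : Set lam.ord.ToType :=
  {z | ∃ c r, IsCert S pt t β c r ∧ InG S φ (cc pt c) r β (decK z)}

theorem mem_GG (hM : RegIdx M) (ht : S.dom t = Set.univ) {β : Ordinal.{u}}
    {c : lam.ord.ToType → lam.ord.ToType} {r : lam.ord.ToType → Ordinal.{u}}
    (h : IsCert S pt t β c r) (z : lam.ord.ToType) :
    z ∈ GG S pt φ decK t β ↔ InG S φ (cc pt c) r β (decK z) := by
  constructor
  · rintro ⟨c', r', h', h1⟩
    exact inG_transfer (NS.sideal hM) h'.1 h'.2.1 h.1 h.2.1 ht h.2.2.2 h1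
  · intro h1
    exact ⟨c, r, h, h1⟩

theorem GG_inj (hM : RegIdx M) (hlam : ℵ₀ ≤ lam) (hΛ : Cofn Λ)
    (hinf : ∀ i, ℵ₀ ≤ #(Iio (Λ i))) (ht : S.dom t = Set.univ)
    (ht2 : ∀ i, S.val t i = hΛ.dflt i)
    (hφ : ∀ i, ∀ v ∈ Vs (Λ i), ∀ w ∈ Vs (Λ i), φ i v = φ i w → v = w)
    (hK : Function.Surjective decK) :
    InjOn (GG S pt φ decK t) (Iio (Order.succ lam).ord) := by
  intro α hα β hβ hab
  by_contra hne
  obtain ⟨c, r, hc⟩ := exists_cert (pt := pt) hM hlam hΛ hinf ht ht2 (max α β) (max_lt hα hβ)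
  have h1 : IsCert S pt t α c r := ⟨hc.1, hc.2.1, hc.2.2.1, (le_max_left _ _).trans_lt hc.2.2.2⟩
  have h2 : IsCert S pt t β c r := ⟨hc.1, hc.2.1, hc.2.2.1, (le_max_right _ _).trans_lt hc.2.2.2⟩
  refine inG_inj (NS.sideal hM) (φ := φ) h1.1 h1.2.1 ht h1.2.2.2 ?_ hne ?_
  · intro i q q' h3
    exact hφ i _ (DC.mem_Vs hc.1 i q) _ (DC.mem_Vs hc.1 i q') h3
  · intro k hk
    obtain ⟨z, rfl⟩ := hK k
    rw [← mem_GG hM ht h2]
    rw [← hab, mem_GG hM ht h1]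
    exact hk

open Classical in
/-- The colouring. -/
noncomputable def col (S : Pieces (NS M) (fun i => Iio (Λ i)) lam.ord.ToType)
    (pt : lam.ord.ToType ≃ Σ i, Iio (Λ i)) (φ : ∀ i, lam.ord.ToType → Set (Iio (Λ i)))
    (decK : lam.ord.ToType → Set (Set M) × lam.ord.ToType × Bool) (t : lam.ord.ToType)
    (α β : Ordinal.{u}) : ZFSet.{u} :=
  if LexLt (GG S pt φ decK t α) (GG S pt φ decK t β) then {∅} else ∅

omit [WellFoundedLT M] in
theorem col_or (α β : Ordinal.{u}) :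
    col S pt φ decK t α β = ∅ ∨ col S pt φ decK t α β = {∅} := by
  unfold col
  split_ifs
  · exact Or.inr rfl
  · exact Or.inl rfl

omit [WellFoundedLT M] in
theorem col_eq_one (α β : Ordinal.{u}) : col S pt φ decK t α β = {∅} ↔
    LexLt (GG S pt φ decK t α) (GG S pt φ decK t β) := by
  unfold col
  split_ifs with h
  · simp [h]
  · simp only [h, iff_false]
    intro h1
    have h2 : (∅ : ZFSet.{u}) ∈ ({∅} : ZFSet.{u}) := by simp
    rw [← h1] at h2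
    exact ZFSet.notMem_empty _ h2

theorem colL_iff (hM : RegIdx M) (hlam : ℵ₀ ≤ lam) (hΛ : Cofn Λ)
    (hinf : ∀ i, ℵ₀ ≤ #(Iio (Λ i))) (ht : S.dom t = Set.univ)
    (ht2 : ∀ i, S.val t i = hΛ.dflt i)
    (hS : Function.Surjective decS) (hT : Function.Surjective decT) {α β : Ordinal.{u}}
    (hab : α < β) (hβ : β < (Order.succ lam).ord) (y : ZFSet.{u}) :
    (∃ c r, ColL (rA1 S decK) (rA2 S decK) (rA3 S pt φ decK) (rA4 S pt) (rA5 pt) (rA6 S decS)
      (rA7 decS decT) (rA8 S decT) c r (Order.succ lam) t α β y) ↔ y = col S pt φ decK t α β := by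
  have key : ∀ c r, IsCert S pt t β c r →
      ((y = {∅} ∧ LexLt {z | InGL (rA1 S decK) (rA2 S decK) (rA3 S pt φ decK) (rA4 S pt) c r α z}
        {z | InGL (rA1 S decK) (rA2 S decK) (rA3 S pt φ decK) (rA4 S pt) c r β z}) ∨
      (y = ∅ ∧ ¬ LexLt {z | InGL (rA1 S decK) (rA2 S decK) (rA3 S pt φ decK) (rA4 S pt) c r α z}
        {z | InGL (rA1 S decK) (rA2 S decK) (rA3 S pt φ decK) (rA4 S pt) c r β z}) ↔
      y = col S pt φ decK t α β) := by
    intro c r h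
    have h1 : IsCert S pt t α c r := ⟨h.1, h.2.1, h.2.2.1, hab.trans h.2.2.2⟩
    have h2 : {z | InGL (rA1 S decK) (rA2 S decK) (rA3 S pt φ decK) (rA4 S pt) c r α z} =
        GG S pt φ decK t α := by
      ext z
      rw [mem_ofPred_eq, inGL_iff, mem_GG hM ht h1]
    have h3 : {z | InGL (rA1 S decK) (rA2 S decK) (rA3 S pt φ decK) (rA4 S pt) c r β z} =
        GG S pt φ decK t β := by
      ext z
      rw [mem_ofPred_eq, inGL_iff, mem_GG hM ht h]
    rw [h2, h3]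
    unfold col
    split_ifs with h4
    · simp [h4]
    · simp [h4]
  constructor
  · rintro ⟨c, r, h1, h2, h3, h4, h5⟩
    rw [dc_iff] at h1
    rw [recL_iff hS hT] at h2
    exact (key c r ⟨h1, h2, h3, h4⟩).1 h5
  · intro hy
    obtain ⟨c, r, hc⟩ := exists_cert (pt := pt) hM hlam hΛ hinf ht ht2 β hβ
    refine ⟨c, r, dc_iff.2 hc.1, (recL_iff hS hT).2 hc.2.1, hc.2.2.1, hc.2.2.2, ?_⟩
    exact (key c r hc).2 hy

end

end Pool.Agent.W5h77.Sg
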