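import Pool.Agent.W5h77.Sg.Defs

/-!
A calculus for `Σ_0`-definable relations.
-/

namespace Pool.Agent.W5h77.Sg

universe u

open Cardinal Ordinal Set

/-- A relation defined by a `Σ_0`-formula. -/
def D0 {n : ℕ} (R : (Fin n → ZFSet.{u}) → Prop) : Prop := ∃ φ : Fml0 n, ∀ v, φ.Sat v ↔ R v

/-- A term which is one of the variables. -/
def IsVar {n : ℕ} (t : (Fin n → ZFSet.{u}) → ZFSet.{u}) : Prop := ∃ i, ∀ v, t v = v i

theorem IsVar.proj {n : ℕ} (i : Fin n) : IsVar (fun v : Fin n → ZFSet.{u} => v i) :=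
  ⟨i, fun _ => rfl⟩

theorem IsVar.init {n : ℕ} {t : (Fin n → ZFSet.{u}) → ZFSet.{u}} (h : IsVar t) :
    IsVar (fun w : Fin (n + 1) → ZFSet.{u} => t (Fin.init w)) := by
  obtain ⟨i, hi⟩ := h
  exact ⟨i.castSucc, fun w => hi _⟩

theorem IsVar.last {n : ℕ} : IsVar (fun w : Fin (n + 1) → ZFSet.{u} => w (Fin.last n)) :=
  ⟨_, fun _ => rfl⟩

section
variable {n : ℕ} {R S : (Fin n → ZFSet.{u}) → Prop} {s t p x y A : (Fin n → ZFSet.{u}) → ZFSet.{u}}

theorem D0.congr (h : D0 R) (h' : ∀ v, S v ↔ R v) : D0 S := by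
  obtain ⟨φ, hφ⟩ := h
  exact ⟨φ, fun v => (hφ v).trans (h' v).symm⟩

theorem D0.mem (hs : IsVar s) (ht : IsVar t) : D0 (fun v => s v ∈ t v) := by
  obtain ⟨i, hi⟩ := hs
  obtain ⟨j, hj⟩ := ht
  exact ⟨.mem i j, fun v => by simp [Fml0.Sat, hi, hj]⟩

theorem D0.eq (hs : IsVar s) (ht : IsVar t) : D0 (fun v => s v = t v) := by
  obtain ⟨i, hi⟩ := hs
  obtain ⟨j, hj⟩ := ht
  exact ⟨.eq i j, fun v => by simp [Fml0.Sat, hi, hj]⟩

theorem D0.not (h : D0 R) : D0 (fun v => ¬ R v) := by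
  obtain ⟨φ, hφ⟩ := h
  exact ⟨.neg φ, fun v => by simp [Fml0.Sat, hφ]⟩

theorem D0.and (h : D0 R) (h' : D0 S) : D0 (fun v => R v ∧ S v) := by
  obtain ⟨φ, hφ⟩ := h
  obtain ⟨ψ, hψ⟩ := h'
  exact ⟨.and φ ψ, fun v => by simp [Fml0.Sat, hφ, hψ]⟩

theorem D0.or (h : D0 R) (h' : D0 S) : D0 (fun v => R v ∨ S v) :=
  ((h.not.and h'.not).not).congr fun v => by tauto

theorem D0.imp (h : D0 R) (h' : D0 S) : D0 (fun v => R v → S v) :=
  (h.not.or h').congr fun v => by tauto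

theorem D0.iff (h : D0 R) (h' : D0 S) : D0 (fun v => (R v ↔ S v)) :=
  ((h.imp h').and (h'.imp h)).congr fun v => by tauto

theorem D0.ball {R : (Fin n → ZFSet.{u}) → ZFSet.{u} → Prop} (ht : IsVar t)
    (h : D0 (fun w : Fin (n + 1) → ZFSet.{u} => R (Fin.init w) (w (Fin.last n)))) :
    D0 (fun v => ∀ x ∈ t v, R v x) := by
  obtain ⟨i, hi⟩ := ht
  obtain ⟨φ, hφ⟩ := h
  refine ⟨.ball i φ, fun v => ?_⟩
  simp only [Fml0.Sat, hφ, hi, Fin.init_snoc, Fin.snoc_last]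

theorem D0.bex {R : (Fin n → ZFSet.{u}) → ZFSet.{u} → Prop} (ht : IsVar t)
    (h : D0 (fun w : Fin (n + 1) → ZFSet.{u} => R (Fin.init w) (w (Fin.last n)))) :
    D0 (fun v => ∃ x ∈ t v, R v x) :=
  ((D0.ball (R := fun v x => ¬ R v x) ht h.not).not).congr fun v => by push Not; rfl

theorem D0.isSing (hp : IsVar p) (hx : IsVar x) : D0 (fun v => p v = {x v}) := by
  have h : D0 (fun v => x v ∈ p v ∧ ∀ w ∈ p v, w = x v) :=
    (D0.mem hx hp).and (D0.ball (R := fun v w => w = x v) hp (D0.eq .last hx.init))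
  refine h.congr fun v => ?_
  constructor
  · intro h; rw [h]; simp
  · rintro ⟨h1, h2⟩
    ext w
    rw [ZFSet.mem_singleton]
    exact ⟨h2 w, fun h => h ▸ h1⟩

theorem D0.isPr (hp : IsVar p) (hx : IsVar x) (hy : IsVar y) : D0 (fun v => p v = {x v, y v}) := by
  have h : D0 (fun v => x v ∈ p v ∧ y v ∈ p v ∧ ∀ w ∈ p v, w = x v ∨ w = y v) :=
    (D0.mem hx hp).and ((D0.mem hy hp).and (D0.ball (R := fun v w => w = x v ∨ w = y v) hp
      ((D0.eq .last hx.init).or (D0.eq .last hy.init))))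
  refine h.congr fun v => ?_
  constructor
  · intro h; rw [h]; simp
  · rintro ⟨h1, h2, h3⟩
    ext w
    rw [ZFSet.mem_pair]
    refine ⟨h3 w, ?_⟩
    rintro (rfl | rfl)
    · exact h1
    · exact h2

theorem D0.isPair (hp : IsVar p) (hx : IsVar x) (hy : IsVar y) :
    D0 (fun v => p v = ZFSet.pair (x v) (y v)) := by
  have h : D0 (fun v => (∀ w ∈ p v, w = {x v} ∨ w = {x v, y v}) ∧ (∃ w ∈ p v, w = {x v}) ∧
      (∃ w ∈ p v, w = {x v, y v})) :=
    (D0.ball (R := fun v w => w = {x v} ∨ w = {x v, y v}) hp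
      ((D0.isSing .last hx.init).or (D0.isPr .last hx.init hy.init))).and
    ((D0.bex (R := fun v w => w = {x v}) hp (D0.isSing .last hx.init)).and
      (D0.bex (R := fun v w => w = {x v, y v}) hp (D0.isPr .last hx.init hy.init)))
  refine h.congr fun v => ?_
  constructor
  · intro h; rw [h]; simp [ZFSet.pair]
  · rintro ⟨h1, ⟨w1, h2, h3⟩, ⟨w2, h4, h5⟩⟩
    ext w
    rw [ZFSet.pair, ZFSet.mem_pair]
    refine ⟨h1 w, ?_⟩
    rintro (rfl | rfl)
    · rwa [← h3]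
    · rwa [← h5]

theorem D0.memP (hx : IsVar x) (hy : IsVar y) (hA : IsVar A) :
    D0 (fun v => ZFSet.pair (x v) (y v) ∈ A v) := by
  have h : D0 (fun v => ∃ p ∈ A v, p = ZFSet.pair (x v) (y v)) :=
    D0.bex (R := fun v p => p = ZFSet.pair (x v) (y v)) hA (D0.isPair .last hx.init hy.init)
  refine h.congr fun v => ?_
  simp

theorem D0.memT {z : (Fin n → ZFSet.{u}) → ZFSet.{u}} (hx : IsVar x) (hy : IsVar y) (hz : IsVar z)
    (hA : IsVar A) : D0 (fun v => ZFSet.pair (x v) (ZFSet.pair (y v) (z v)) ∈ A v) := by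
  have h : D0 (fun v => ∃ p ∈ A v, ∃ s ∈ p, ∃ q ∈ s, q = ZFSet.pair (y v) (z v) ∧
      p = ZFSet.pair (x v) q) := by
    refine D0.bex (R := fun v p => ∃ s ∈ p, ∃ q ∈ s, q = ZFSet.pair (y v) (z v) ∧
      p = ZFSet.pair (x v) q) hA ?_
    refine D0.bex (R := fun w s => ∃ q ∈ s, q = ZFSet.pair (y (Fin.init w)) (z (Fin.init w)) ∧
      w (Fin.last n) = ZFSet.pair (x (Fin.init w)) q) .last ?_
    refine D0.bex (R := fun w q => q = ZFSet.pair (y (Fin.init (Fin.init w)))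
      (z (Fin.init (Fin.init w))) ∧ (Fin.init w : Fin (n + 1) → ZFSet.{u}) (Fin.last n) =
        ZFSet.pair (x (Fin.init (Fin.init w))) q) .last ?_
    exact (D0.isPair .last hy.init.init.init hz.init.init.init).and
      (D0.isPair (IsVar.init (IsVar.init .last)) hx.init.init.init .last)
  refine h.congr fun v => ?_
  constructor
  · intro h
    exact ⟨_, h, {x v, ZFSet.pair (y v) (z v)}, by simp [ZFSet.pair], _, by simp, rfl, rfl⟩
  · rintro ⟨p, h1, s, _, q, _, rfl, rfl⟩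
    exact h1

end

end Pool.Agent.W5h77.Sg
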