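import Mathlib

/-!
Definitions for definable colourings of pairs of ordinals: the Levy hierarchy of formulas in the
language of set theory, the sets `H(κ)`, `Σ_n(z)`-partitions and the `Σ_n`-colouring property.
Sets are the sets `ZFSet` of Mathlib; the ordinal `α` is identified with the von Neumann ordinal
`α.toZFSet`.
-/

namespace Pool.Agent.W5h77.Sg

universe u

open Cardinal Ordinal Set

/-- `Σ_0`-formulas of the language `{∈}` whose free variables are among `x_0, ..., x_{n-1}`: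
they are built from atomic formulas by negation, conjunction and bounded quantification;
`ball i φ` is the formula `∀ x_n ∈ x_i, φ(x_0, ..., x_n)`. -/
inductive Fml0 : ℕ → Type
  | mem {n : ℕ} (i j : Fin n) : Fml0 n
  | eq {n : ℕ} (i j : Fin n) : Fml0 n
  | neg {n : ℕ} (φ : Fml0 n) : Fml0 n
  | and {n : ℕ} (φ ψ : Fml0 n) : Fml0 n
  | ball {n : ℕ} (i : Fin n) (φ : Fml0 (n + 1)) : Fml0 n

/-- Truth of `Σ_0`-formulas in the universe of sets. -/
def Fml0.Sat : {n : ℕ} → Fml0 n → (Fin n → ZFSet.{u}) → Prop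
  | _, .mem i j, v => v i ∈ v j
  | _, .eq i j, v => v i = v j
  | _, .neg φ, v => ¬ φ.Sat v
  | _, .and φ ψ, v => φ.Sat v ∧ ψ.Sat v
  | _, .ball i φ, v => ∀ x ∈ v i, φ.Sat (Fin.snoc (α := fun _ => ZFSet.{u}) v x)

/-- `Sig k n` is the type of `Σ_k`-formulas with free variables among `x_0, ..., x_{n-1}`:
a `Σ_{k+1}`-formula has the form `∃ x_n, ¬ φ` with `φ` a `Σ_k`-formula with free variables among
`x_0, ..., x_n`. -/
def Sig : ℕ → ℕ → Type
  | 0, n => Fml0 n
  | k + 1, n => Sig k (n + 1)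

/-- Truth of `Σ_k`-formulas in the universe of sets. -/
def Sig.Sat : (k : ℕ) → {n : ℕ} → Sig k n → (Fin n → ZFSet.{u}) → Prop
  | 0, _, φ, v => Fml0.Sat φ v
  | k + 1, _, φ, v => ∃ x : ZFSet.{u}, ¬ Sig.Sat k φ (Fin.snoc (α := fun _ => ZFSet.{u}) v x)

/-- `x ∈ H(κ)`: the set `x` is included in a transitive set of cardinality less than `κ`, that is,
`x` has hereditary cardinality less than `κ`. -/
def InH (κ : Cardinal.{u}) (x : ZFSet.{u}) : Prop :=
  ∃ t : ZFSet.{u}, t.IsTransitive ∧ x ⊆ t ∧ t.card < κ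

/-- The assignment `α, β, y, κ, z_0, ..., z_{m-1}`. -/
noncomputable def env (α β : Ordinal.{u}) (y : ZFSet.{u}) (κ : Cardinal.{u}) {m : ℕ}
    (z : Fin m → ZFSet.{u}) : Fin (4 + m) → ZFSet.{u} :=
  Fin.append ![α.toZFSet, β.toZFSet, y, κ.ord.toZFSet] z

/-- `c`, regarded as a function on the pairs `α < β` of ordinals below `κ`, is a
`Σ_n(z_0, ..., z_{m-1})`-partition: for some `Σ_n`-formula `φ` and all `α < β < κ`, the set
`c α β` is the unique `y` with `φ(α, β, y, κ, z_0, ..., z_{m-1})`. -/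
def IsSigPartition (n : ℕ) (κ : Cardinal.{u}) {m : ℕ} (z : Fin m → ZFSet.{u})
    (c : Ordinal.{u} → Ordinal.{u} → ZFSet.{u}) : Prop :=
  ∃ φ : Sig n (4 + m), ∀ α β : Ordinal.{u}, α < β → β < κ.ord →
    ∀ y : ZFSet.{u}, Sig.Sat n φ (env α β y κ z) ↔ y = c α β

/-- The `Σ_n(z_0, ..., z_{m-1})`-colouring property of `κ`: every
`Σ_n(z_0, ..., z_{m-1})`-partition of the pairs from `κ` into the two colours `0 = ∅` and
`1 = {∅}` has a homogeneous set of cardinality `κ`. -/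
def SigColouring (n : ℕ) (κ : Cardinal.{u}) {m : ℕ} (z : Fin m → ZFSet.{u}) : Prop :=
  ∀ c : Ordinal.{u} → Ordinal.{u} → ZFSet.{u},
    (∀ α β, α < β → β < κ.ord → c α β = ∅ ∨ c α β = {∅}) → IsSigPartition n κ z c →
    ∃ H : Set Ordinal.{u}, H ⊆ Iio κ.ord ∧ #H = Cardinal.lift.{u + 1} κ ∧
      ∃ y : ZFSet.{u}, ∀ α ∈ H, ∀ β ∈ H, α < β → c α β = y

/-- The boldface `Σ_n`-colouring property of `κ`: the `Σ_n(z_0, ..., z_{m-1})`-colouring property
for all finite tuples of parameters from `H(κ)`. -/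
def BoldSigColouring (n : ℕ) (κ : Cardinal.{u}) : Prop :=
  ∀ (m : ℕ) (z : Fin m → ZFSet.{u}), (∀ j, InH κ (z j)) → SigColouring n κ z

end Pool.Agent.W5h77.Sg
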