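import Pool.Agent.W5h77.Sg.NS

/-!
Existence of coding functions with large norm.
-/

namespace Pool.Agent.W5h77.Sg

universe u v w

open Set Cardinal Ordinal

variable {M L : Type u} [LinearOrder M] [WellFoundedLT M] [LinearOrder L] [WellFoundedLT L]
  {Λ : M → L}

/-- Values with at most `#(Iio l)` predecessors. -/
def Vs (l : L) : Set L := {v | #(Iio v) ≤ #(Iio l)}

omit [WellFoundedLT L] in
theorem Iic_le {l v : L} (hl : ℵ₀ ≤ #(Iio l)) (hv : v ∈ Vs l) : #(Iic v) ≤ #(Iio l) := by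
  have h1 : (Iic v : Set L) = insert v (Iio v) := by
    ext x; simp [le_iff_eq_or_lt]
  rw [h1]
  refine (mk_insert_le).trans ?_
  exact add_le_of_le hl hv ((one_lt_aleph0.le).trans hl)

theorem Vs_sup (hL : ∀ l : L, #(Iio l) < #L) {l : L} (hl : ℵ₀ ≤ #(Iio l)) {ι : Type u}
    (s : ι → L) (hs : ∀ x, s x ∈ Vs l) (hι : #ι ≤ #(Iio l)) : ∃ v ∈ Vs l, ∀ x, s x < v := by
  let U : Set L := ⋃ x, Iic (s x)
  have hU : #U ≤ #(Iio l) := by
    refine (mk_iUnion_le _).trans ?_
    refine (mul_le_mul' hι (ciSup_le' fun x => Iic_le hl (hs x))).trans ?_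
    rw [mul_eq_self hl]
  have h1 : ∃ v, v ∉ U := by
    by_contra hcon
    push Not at hcon
    have h2 : U = Set.univ := eq_univ_of_forall hcon
    rw [h2, mk_univ] at hU
    exact absurd (hL l) (not_lt.2 hU)
  obtain ⟨v, hv1, hv2⟩ := (wellFounded_lt (α := L)).has_min {v | v ∉ U} h1
  refine ⟨v, ?_, ?_⟩
  · refine (mk_le_mk_of_subset ?_).trans hU
    intro w hw
    by_contra hwU
    exact hv2 w hwU hw
  · intro x
    by_contra hcon
    exact hv1 (mem_iUnion.2 ⟨x, not_lt.1 hcon⟩)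

/-- There are functions of norm at least `β` for each `β` below the successor cardinal. -/
theorem exists_ge (hM : RegIdx M) (hΛ : Cofn Λ) (hL : ∀ l : L, #(Iio l) < #L)
    (hinf : ∀ i, ℵ₀ ≤ #(Iio (Λ i))) (β : Ordinal.{u}) (hβ : β < (Order.succ #L).ord) :
    ∃ x : M → L, (∀ i, x i ∈ Vs (Λ i)) ∧ Ge (NS M) Set.univ β x := by
  induction β using WellFoundedLT.induction with
  | ind β ih =>
    have h1 : ∀ b : β.ToType, ∃ x : M → L, (∀ i, x i ∈ Vs (Λ i)) ∧
        Ge (NS M) Set.univ (ToType.toOrd b).1 x :=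
      fun b => ih _ (ToType.toOrd b).2 ((ToType.toOrd b).2.trans hβ)
    choose x hx1 hx2 using h1
    have h2 : #β.ToType ≤ #L := by
      rw [mk_toType, ← Order.lt_succ_iff]
      exact lt_ord.1 hβ
    obtain ⟨e⟩ := h2
    have h3 : ∀ i, ∃ v ∈ Vs (Λ i), ∀ b : {b // e b < Λ i}, x b.1 i < v := by
      intro i
      refine Vs_sup hL (hinf i) (fun b : {b // e b < Λ i} => x b.1 i) (fun b => hx1 b.1 i) ?_
      refine mk_le_of_injective (f := fun b : {b // e b < Λ i} => (⟨e b.1, b.2⟩ : Iio (Λ i))) ?_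
      intro a b hab
      exact Subtype.ext (e.injective (Subtype.ext_iff.1 hab))
    choose y hy1 hy2 using h3
    refine ⟨y, hy1, ?_⟩
    rw [ge_iff]
    intro γ hγ
    let b : β.ToType := ToType.mk ⟨γ, hγ⟩
    have hb : (ToType.toOrd b).1 = γ := by simp [b]
    refine ⟨x b, ?_, ?_⟩
    · obtain ⟨i0, hi0⟩ := hΛ.cof (e b)
      refine NS.mono ?_ (NS.bounded i0)
      rintro i ⟨_, hi⟩
      by_contra hcon
      apply hi
      have h4 : e b < Λ i := hi0.trans_le (hΛ.mono _ _ (not_le.1 hcon).le)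
      exact hy2 i ⟨b, h4⟩
    · have := hx2 b
      rwa [hb] at this

omit [WellFoundedLT M] in
/-- Values of downward closed coding functions. -/
theorem DC.mem_Vs {c : ∀ i, Iio (Λ i) → L} (hc : DC c) (i : M) (q : Iio (Λ i)) :
    c i q ∈ Vs (Λ i) := by
  change #(Iio (c i q)) ≤ #(Iio (Λ i))
  have h1 : Iio (c i q) ⊆ Set.range (c i) := by
    intro v hv
    exact hc i q v hv
  exact (mk_le_mk_of_subset h1).trans mk_range_le

omit [WellFoundedLT M] in
open Classical in
/-- A coding function with prescribed values at the default points. -/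
theorem exists_code (hΛ : Cofn Λ) (hinf : ∀ i, ℵ₀ ≤ #(Iio (Λ i))) (x : M → L)
    (hx : ∀ i, x i ∈ Vs (Λ i)) :
    ∃ c : ∀ i, Iio (Λ i) → L, DC c ∧ ∀ i, c i (hΛ.dflt i) = x i := by
  have h1 : ∀ i, ∃ s : Iio (Λ i) → Iic (x i), Function.Surjective s := by
    intro i
    obtain ⟨e⟩ := Iic_le (hinf i) (hx i)
    haveI : Nonempty (Iic (x i)) := ⟨⟨x i, le_rfl⟩⟩
    exact ⟨Function.invFun e, Function.invFun_surjective e.injective⟩
  choose s hs using h1
  have h2 : ∀ i, ∃ q, s i q = ⟨x i, le_rfl⟩ := fun i => hs i _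
  choose q hq using h2
  refine ⟨fun i p => s i (Equiv.swap (hΛ.dflt i) (q i) p), ?_, ?_⟩
  · intro i p v hv
    have h3 : v ≤ x i := hv.le.trans (s i _).2
    obtain ⟨p', hp'⟩ := hs i ⟨v, h3⟩
    refine ⟨Equiv.swap (hΛ.dflt i) (q i) p', ?_⟩
    simp [hp']
  · intro i
    simp [hq]

/-- An injection of the values into sets of points. -/
theorem exists_phi (hinf : ∀ i, ℵ₀ ≤ #(Iio (Λ i))) :
    ∃ φ : ∀ i, L → Set (Iio (Λ i)), ∀ i, ∀ v ∈ Vs (Λ i), ∀ w ∈ Vs (Λ i), φ i v = φ i w → v = w := by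
  have h1 : ∀ l : L, ℵ₀ ≤ #(Iio l) → ∃ φ : L → Set (Iio l), ∀ v ∈ Vs l, ∀ w ∈ Vs l,
      φ v = φ w → v = w := by
    intro l hl
    have h2 : #(Vs l) ≤ Order.succ #(Iio l) := by
      let f : Vs l → Iio ((Order.succ #(Iio l)).ord) := fun v =>
        ⟨typein (α := L) (· < ·) v.1, by
          rw [mem_Iio, lt_ord, Order.lt_succ_iff]
          exact v.2⟩
      have hf : Function.Injective f := by
        intro a b hab
        have h3 := Subtype.ext_iff.1 hab
        exact Subtype.ext (typein_injective (α := L) (· < ·) h3)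
      have h3 := mk_le_of_injective (f := (fun x => f (ULift.down x) :
        ULift.{u+1} (Vs l) → Iio ((Order.succ #(Iio l)).ord))) (by
          intro a b hab
          exact ULift.down_injective (hf hab))
      rwa [Cardinal.mk_Iio_ordinal, card_ord, mk_uLift, Cardinal.lift_le] at h3
    have h3 : #(Vs l) ≤ #(Set (Iio l)) := by
      rw [mk_set]
      exact h2.trans (Order.succ_le_of_lt (cantor _))
    obtain ⟨e⟩ := h3
    classical
    refine ⟨fun v => if h : v ∈ Vs l then e ⟨v, h⟩ else ∅, ?_⟩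
    intro v hv w hw hvw
    simp only [dif_pos hv, dif_pos hw] at hvw
    exact Subtype.ext_iff.1 (e.injective hvw)
  choose φ hφ using fun i => h1 (Λ i) (hinf i)
  exact ⟨φ, hφ⟩

end Pool.Agent.W5h77.Sg
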