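import Pool.Agent.W5h77.Sg.Cert

/-!
The injection from ordinals into sets of `codes', computed from a certificate and independent
of it.
-/

namespace Pool.Agent.W5h77.Sg

universe u v w

open Set Cardinal Ordinal

variable {M V : Type u} [LinearOrder V] {I : Set (Set M)} {Q : M → Type u} {D : Type w}

/-- A family of sets closed under `I`-covers. -/
def ClosedJ (I : Set (Set M)) (J : Set (Set M)) : Prop :=
  ∀ X, X ∉ J → ∀ C, Cover I X C → ∃ Y ∈ C, Y ∉ J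

namespace ClosedJ
variable {J : Set (Set M)}

theorem notMem_I (h : ClosedJ I J) (hI : SIdeal I) {X : Set M} (hX : X ∉ J) : X ∉ I := by
  intro hXI
  obtain ⟨Y, hY, _⟩ := h X hX ∅ ⟨by simp, by simp, by simp, fun N hN _ => hI.mono hN hXI⟩
  exact hY

theorem split (h : ClosedJ I J) (hI : SIdeal I) {X A B : Set M} (hX : X ∉ J)
    (hU : X = A ∪ B) (hd : ∀ i, i ∈ A → i ∉ B) : A ∉ J ∨ B ∉ J := by
  have hC : Cover I X {Y | (Y = A ∨ Y = B) ∧ Y ∉ I} := by
    refine ⟨?_, ?_, ?_, ?_⟩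
    · rintro Y ⟨rfl | rfl, _⟩
      · rw [hU]; exact subset_union_left
      · rw [hU]; exact subset_union_right
    · exact fun Y hY => hY.2
    · rintro Y ⟨rfl | rfl, _⟩ Y' ⟨rfl | rfl, _⟩ i h1 h2
      · rfl
      · exact absurd h2 (hd i h1)
      · exact absurd h1 (hd i h2)
      · rfl
    · intro N hN hNY
      have h1 : ∀ Z, (Z = A ∨ Z = B) → N ∩ Z ∈ I := by
        intro Z hZ
        by_cases hZI : Z ∈ I
        · exact hI.mono inter_subset_right hZI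
        · exact hNY Z ⟨hZ, hZI⟩
      refine hI.mono ?_ (hI.union (h1 A (Or.inl rfl)) (h1 B (Or.inr rfl)))
      intro i hi
      have h2 := hN hi
      rw [hU] at h2
      rcases h2 with h2 | h2
      · exact Or.inl ⟨hi, h2⟩
      · exact Or.inr ⟨hi, h2⟩
  obtain ⟨Y, hY, hYJ⟩ := h X hX _ hC
  rcases hY.1 with rfl | rfl
  · exact Or.inl hYJ
  · exact Or.inr hYJ

theorem piece (h : ClosedJ I J) (S : Pieces I Q D) {X : Set M} (hX : X ∉ J) (δ : ∀ i, Q i) :
    ∃ d, S.dom d ⊆ X ∧ S.dom d ∉ J ∧ ∀ i ∈ S.dom d, S.val d i = δ i := by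
  obtain ⟨C, hC, hP⟩ := S.part X δ
  obtain ⟨Y, hY, hYJ⟩ := h X hX C hC
  obtain ⟨d, h1, h2⟩ := hP Y hY
  refine ⟨d, ?_, ?_, ?_⟩
  · rw [h1]; exact hC.sub Y hY
  · rwa [h1]
  · rw [h1]; exact h2

end ClosedJ

/-- The set of codes attached to the ordinal `β` by the certificate `c, r`. -/
def InG (S : Pieces I Q D) (φ : ∀ i, V → Set (Q i)) (c : ∀ i, Q i → V) (r : D → Ordinal.{u})
    (β : Ordinal.{u}) (k : Set (Set M) × D × Bool) : Prop :=
  ClosedJ I k.1 ∧ ∃ ξ, S.dom ξ ⊆ S.dom k.2.1 ∧ S.dom ξ ∉ k.1 ∧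
    (∀ η, S.dom η ⊆ S.dom ξ → (∀ i ∈ S.dom η, S.val η i = S.val ξ i) → S.dom η ∉ k.1 → r η = β) ∧
    ∀ i ∈ S.dom ξ, (S.val k.2.1 i ∈ φ i (c i (S.val ξ i)) ↔ k.2.2 = true)

variable [WellFoundedLT V] {S : Pieces I Q D} {φ : ∀ i, V → Set (Q i)}
  {c c' : ∀ i, Q i → V} {r r' : D → Ordinal.{u}} {β β' : Ordinal.{u}}

theorem good_iff (hI : SIdeal I) (hc : DC c) (hr : Rec S c r) {J : Set (Set M)}
    (hJ : ClosedJ I J) (ξ : D) :
    (∀ η, S.dom η ⊆ S.dom ξ → (∀ i ∈ S.dom η, S.val η i = S.val ξ i) → S.dom η ∉ J → r η = β) ↔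
      ∀ Z, Z ⊆ S.dom ξ → Z ∉ J → nrm I Z (fn S c ξ) = β := by
  constructor
  · intro h Z hZ hZJ
    obtain ⟨η, h1, h2⟩ := S.restr ξ Z hZ (hJ.notMem_I hI hZJ)
    have h3 := h η (by rwa [h1]) (by rwa [h1]) (by rwa [h1])
    rw [rec_unique hI hc hr η, h1] at h3
    rw [← h3]
    refine nrm_congr hI (hJ.notMem_I hI hZJ) ?_
    intro i hi
    simp only [fn, h2 i hi]
  · intro h η h1 h2 h3
    rw [rec_unique hI hc hr η, ← h _ h1 h3]
    refine nrm_congr hI (S.pos η) ?_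
    intro i hi
    simp only [fn, h2 i hi]

open Classical in
theorem inG_transfer (hI : SIdeal I) (hc : DC c) (hr : Rec S c r) (hc' : DC c')
    (hr' : Rec S c' r') {t : D} (ht : S.dom t = Set.univ) (hβ : β < r' t)
    {k : Set (Set M) × D × Bool} (h : InG S φ c r β k) : InG S φ c' r' β k := by
  obtain ⟨hJ, ξ, h1, h2, h3, h4⟩ := h
  rw [good_iff hI hc hr hJ] at h3
  set f := fn S c ξ with hf
  set x := fn S c' t with hx
  have hβ' : β < nrm I Set.univ x := by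
    rw [rec_unique hI hc' hr' t, ht] at hβ
    exact hβ
  let Y : Set M := {i | i ∈ S.dom ξ ∧ ¬ f i < x i}
  let T : Set M := {i | i ∈ S.dom ξ ∧ f i < x i}
  have hY : Y ∈ k.1 := by
    by_contra hY
    have h5 := h3 Y (fun i hi => hi.1) hY
    have hYI := hJ.notMem_I hI hY
    have h6 : nrm I Set.univ x ≤ nrm I Y f :=
      (nrm_mono_set hI hYI (subset_univ _)).trans
        (nrm_mono_fun hI hYI fun i hi => not_lt.1 hi.2)
    rw [h5] at h6
    exact absurd hβ' (not_lt.2 h6)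
  have hT : T ∉ k.1 := by
    rcases hJ.split hI (A := Y) (B := T) h2 (by
      ext i
      simp only [Y, T, mem_union, mem_ofPred_eq]
      tauto) (fun i hi hi' => hi.2 hi'.2) with h5 | h5
    · exact absurd hY h5
    · exact h5
  have h5 : ∀ i, ∃ q : Q i, f i < x i → c' i q = f i := by
    intro i
    by_cases h : f i < x i
    · obtain ⟨q, hq⟩ := hc' i _ _ h
      exact ⟨q, fun _ => hq⟩
    · exact ⟨S.val ξ i, fun h' => absurd h' h⟩
  choose δ hδ using h5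
  obtain ⟨d, h6, h7, h8⟩ := hJ.piece S hT δ
  have h9 : ∀ i ∈ S.dom d, c' i (S.val d i) = f i := by
    intro i hi
    rw [h8 i hi]
    exact hδ i (h6 hi).2
  have h10 : S.dom d ⊆ S.dom ξ := fun i hi => (h6 hi).1
  refine ⟨hJ, d, h10.trans h1, h7, ?_, ?_⟩
  · rw [good_iff hI hc' hr' hJ]
    intro Z hZ hZJ
    rw [← h3 Z (hZ.trans h10) hZJ]
    exact nrm_congr hI (hJ.notMem_I hI hZJ) (fun i hi => h9 i (hZ hi))
  · intro i hi
    rw [h9 i hi]
    exact h4 i (h10 hi)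

open Classical in
theorem inG_inj (hI : SIdeal I) (hc : DC c) (hr : Rec S c r) {t : D} (ht : S.dom t = Set.univ)
    (hβ : β < r t) (hφ : ∀ i q q', φ i (c i q) = φ i (c i q') → c i q = c i q')
    (hne : β ≠ β') (heq : ∀ k, InG S φ c r β k → InG S φ c r β' k) : False := by
  have hβ' : β < nrm I Set.univ (fn S c t) := by
    rw [rec_unique hI hc hr t, ht] at hβ
    exact hβ
  have hu : (Set.univ : Set M) ∉ I := by
    rw [← ht]; exact S.pos t
  obtain ⟨f, hf1, hf2⟩ := exists_nrm_eq hI hu hβ'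
  let J : Set (Set M) := {X | Ge I X (β + 1) f}
  have hJ : ClosedJ I J := by
    intro X hX C hC
    by_contra hcon
    push Not at hcon
    exact hX (glue hI hC hcon)
  have huJ : Set.univ ∉ J := by
    change ¬ Ge I Set.univ (β + 1) f
    rw [← nrm_lt_iff hI hu, hf2]
    exact lt_add_one β
  have hJn : ∀ Z, Z ∉ J → nrm I Z f = β := by
    intro Z hZ
    have hZI := hJ.notMem_I hI hZ
    apply le_antisymm
    · rw [← Order.lt_add_one_iff, nrm_lt_iff hI hZI]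
      exact hZ
    · rw [← hf2]
      exact nrm_mono_set hI hZI (subset_univ _)
  rw [← ht] at hf1
  obtain ⟨C, hC, hP⟩ := to_pieces hI hc hf1
  rw [ht] at hC
  obtain ⟨Y, hY, hYJ⟩ := hJ _ huJ C hC
  obtain ⟨ξ0, h1, h2, _⟩ := hP Y hY
  -- a criterion for `InG β`
  have key : ∀ (T : Set M) (θ : ∀ i, Q i) (s : Bool), T ⊆ Y → T ∉ J →
      (∀ i ∈ T, (θ i ∈ φ i (f i) ↔ s = true)) →
      ∃ d, S.dom d ⊆ T ∧ S.dom d ∉ J ∧ (∀ i ∈ S.dom d, S.val d i = θ i) ∧
        InG S φ c r β (J, d, s) := by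
    intro T θ s hTY hTJ hs
    obtain ⟨d, h3, h4, h5⟩ := hJ.piece S hTJ θ
    refine ⟨d, h3, h4, h5, hJ, ?_⟩
    obtain ⟨ξ1, h6, h7⟩ := S.restr ξ0 (S.dom d) (by rw [h1]; exact h3.trans hTY) (S.pos d)
    have h8 : ∀ i ∈ S.dom d, c i (S.val ξ1 i) = f i := by
      intro i hi
      rw [h7 i hi]
      exact h2 i (hTY (h3 hi))
    refine ⟨ξ1, by rw [h6], by rwa [h6], ?_, ?_⟩
    · rw [good_iff hI hc hr hJ]
      intro Z hZ hZJ
      rw [← hJn Z hZJ]
      refine nrm_congr hI (hJ.notMem_I hI hZJ) ?_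
      intro i hi
      exact h8 i (by rw [← h6]; exact hZ hi)
    · intro i hi
      rw [h6] at hi
      change S.val d i ∈ φ i (c i (S.val ξ1 i)) ↔ s = true
      rw [h8 i hi, h5 i hi]
      exact hs i (h3 hi)
  -- first step
  have step1 : ∃ ξ2, S.dom ξ2 ⊆ Y ∧ S.dom ξ2 ∉ J ∧
      ∀ Z, Z ⊆ S.dom ξ2 → Z ∉ J → nrm I Z (fn S c ξ2) = β' := by
    let θ := S.val ξ0
    let A : Set M := {i | i ∈ Y ∧ θ i ∈ φ i (f i)}
    let B : Set M := {i | i ∈ Y ∧ ¬ θ i ∈ φ i (f i)}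
    have h3 : ∃ T s, T ⊆ Y ∧ T ∉ J ∧ (∀ i ∈ T, (θ i ∈ φ i (f i) ↔ s = true)) := by
      rcases hJ.split hI (A := A) (B := B) hYJ (by
        ext i
        simp only [A, B, mem_union, mem_ofPred_eq]
        tauto) (fun i hi hi' => hi'.2 hi.2) with h3 | h3
      · exact ⟨A, true, fun i hi => hi.1, h3, fun i hi => by simp [hi.2]⟩
      · exact ⟨B, false, fun i hi => hi.1, h3, fun i hi => by simp [hi.2]⟩
    obtain ⟨T, s, h4, h5, h6⟩ := h3
    obtain ⟨d, h7, h8, h9, h10⟩ := key T θ s h4 h5 h6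
    obtain ⟨_, ξ2, h11, h12, h13, h14⟩ := heq _ h10
    refine ⟨ξ2, h11.trans (h7.trans h4), h12, ?_⟩
    rwa [good_iff hI hc hr hJ] at h13
  obtain ⟨ξ2, h3, h4, h5⟩ := step1
  let f' := fn S c ξ2
  let E : Set M := {i | i ∈ S.dom ξ2 ∧ f i = f' i}
  let T2 : Set M := {i | i ∈ S.dom ξ2 ∧ ¬ f i = f' i}
  have hE : E ∈ J := by
    by_contra hE
    have h6 := h5 E (fun i hi => hi.1) hE
    have h7 := hJn E hE
    have h8 : nrm I E f = nrm I E f' := nrm_congr hI (hJ.notMem_I hI hE) (fun i hi => hi.2)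
    exact hne (by rw [← h7, h8]; exact h6)
  have hT2 : T2 ∉ J := by
    rcases hJ.split hI (A := E) (B := T2) h4 (by
      ext i
      simp only [E, T2, mem_union, mem_ofPred_eq]
      tauto) (fun i hi hi' => hi'.2 hi.2) with h6 | h6
    · exact absurd hE h6
    · exact h6
  have h6 : ∀ i, ∃ q : Q i, i ∈ T2 → ¬ (q ∈ φ i (f i) ↔ q ∈ φ i (f' i)) := by
    intro i
    by_cases hi : i ∈ T2
    · have h7 : f i = c i (S.val ξ0 i) := (h2 i (h3 hi.1)).symm
      have h8 : φ i (f i) ≠ φ i (f' i) := by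
        intro h9
        apply hi.2
        rw [h7] at h9 ⊢
        exact hφ i _ _ h9
      by_contra hcon
      push Not at hcon
      apply h8
      ext q
      exact (hcon q).2
    · exact ⟨S.val ξ0 i, fun h => absurd h hi⟩
  choose θ hθ using h6
  have h7 : ∃ T s, T ⊆ T2 ∧ T ∉ J ∧ (∀ i ∈ T, (θ i ∈ φ i (f i) ↔ s = true)) := by
    let A : Set M := {i | i ∈ T2 ∧ θ i ∈ φ i (f i)}
    let B : Set M := {i | i ∈ T2 ∧ ¬ θ i ∈ φ i (f i)}
    rcases hJ.split hI (A := A) (B := B) hT2 (by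
      ext i
      simp only [A, B, mem_union, mem_ofPred_eq]
      tauto) (fun i hi hi' => hi'.2 hi.2) with h3 | h3
    · exact ⟨A, true, fun i hi => hi.1, h3, fun i hi => by simp [hi.2]⟩
    · exact ⟨B, false, fun i hi => hi.1, h3, fun i hi => by simp [hi.2]⟩
  obtain ⟨T, s, h8, h9, h10⟩ := h7
  obtain ⟨d, h11, h12, h13, h14⟩ := key T θ s (fun i hi => h3 (h8 hi).1) h9 h10
  obtain ⟨_, ξ4, h15, h16, h17, h18⟩ := heq _ h14
  rw [good_iff hI hc hr hJ] at h17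
  let f'' := fn S c ξ4
  have h19 : ∀ i ∈ S.dom ξ4, f'' i ≠ f' i := by
    intro i hi h20
    have h21 := h18 i hi
    change S.val d i ∈ φ i (f'' i) ↔ s = true at h21
    have h22 : i ∈ T := h11 (h15 hi)
    rw [h13 i (h15 hi), h20, ← h10 i h22] at h21
    exact hθ i (h8 h22) h21.symm
  have h20 : S.dom ξ4 ⊆ S.dom ξ2 := fun i hi => (h8 (h11 (h15 hi))).1
  let Z1 : Set M := {i | i ∈ S.dom ξ4 ∧ f'' i < f' i}
  let Z2 : Set M := {i | i ∈ S.dom ξ4 ∧ f' i < f'' i}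
  rcases hJ.split hI (A := Z1) (B := Z2) h16 (by
    ext i
    simp only [Z1, Z2, mem_union, mem_ofPred_eq]
    constructor
    · intro hi
      rcases lt_or_gt_of_ne (h19 i hi) with h | h
      · exact Or.inl ⟨hi, h⟩
      · exact Or.inr ⟨hi, h⟩
    · rintro (h | h)
      · exact h.1
      · exact h.1) (fun i hi hi' => lt_asymm hi.2 hi'.2) with h21 | h21
  · have h22 : Lt I Z1 f'' f' := by
      refine hI.mono ?_ hI.empty
      rintro i ⟨hi, hi'⟩
      exact absurd hi.2 hi'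
    have h23 := nrm_lt_of_lt hI (hJ.notMem_I hI h21) h22
    rw [h5 Z1 (fun i hi => h20 hi.1) h21, h17 Z1 (fun i hi => hi.1) h21] at h23
    exact lt_irrefl _ h23
  · have h22 : Lt I Z2 f' f'' := by
      refine hI.mono ?_ hI.empty
      rintro i ⟨hi, hi'⟩
      exact absurd hi.2 hi'
    have h23 := nrm_lt_of_lt hI (hJ.notMem_I hI h21) h22
    rw [h5 Z2 (fun i hi => h20 hi.1) h21, h17 Z2 (fun i hi => hi.1) h21] at h23
    exact lt_irrefl _ h23

end Pool.Agent.W5h77.Sg
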