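import Pool.Agent.W5h77.Sg.Core

/-!
Parameters in `H(κ)` and the main theorem.
-/

namespace Pool.Agent.W5h77.Sg

universe u v w

open Set Cardinal Ordinal

section InH

variable {κ : Cardinal.{u}}

theorem InH.ord {o : Ordinal.{u}} (h : o < κ.ord) : InH κ o.toZFSet :=
  ⟨o.toZFSet, (ZFSet.isOrdinal_toZFSet o).isTransitive, fun _ h => h, by
    rw [card_toZFSet]; exact lt_ord.1 h⟩

theorem InH.of_mem (hκ : κ.IsRegular) {x : ZFSet.{u}} (h : ∀ y ∈ x, InH κ y) (hc : x.card < κ) :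
    InH κ x := by
  have h1 : ∀ y : {y : ZFSet.{u} // y ∈ x}, ∃ t : ZFSet.{u}, t.IsTransitive ∧ y.1 ⊆ t ∧
    t.card < κ := fun y => h y.1 y.2
  choose t ht1 ht2 ht3 using h1
  let f : Shrink.{u} {y : ZFSet.{u} // y ∈ x} → ZFSet.{u} := fun a => t ((equivShrink _).symm a)
  let T : ZFSet.{u} := x ∪ ZFSet.iUnion f
  have hT : ∀ (y : ZFSet.{u}) (hy : y ∈ x), t ⟨y, hy⟩ ⊆ T := by
    intro y hy z hz
    simp only [T, ZFSet.mem_union, ZFSet.mem_iUnion]
    right
    exact ⟨equivShrink _ ⟨y, hy⟩, by simpa [f] using hz⟩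
  refine ⟨T, ?_, ?_, ?_⟩
  · intro y hy
    simp only [T, ZFSet.mem_union, ZFSet.mem_iUnion] at hy
    rcases hy with hy | ⟨a, ha⟩
    · intro z hz
      exact hT y hy (ht2 ⟨y, hy⟩ hz)
    · intro z hz
      have h2 : z ∈ f a := ht1 _ y ha hz
      simp only [T, ZFSet.mem_union, ZFSet.mem_iUnion]
      exact Or.inr ⟨a, h2⟩
  · intro z hz
    simp only [T, ZFSet.mem_union]
    exact Or.inl hz
  · refine (ZFSet.card_union_le).trans_lt ?_
    refine add_lt_of_lt hκ.aleph0_le hc ?_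
    have h2 := ZFSet.lift_card_iUnion_le_sum_card (f := f)
    rw [Cardinal.lift_id] at h2
    refine h2.trans_lt ?_
    refine sum_lt_of_isRegular hκ ?_ (fun a => ht3 _)
    exact hc

theorem InH.upair (hκ : κ.IsRegular) {x y : ZFSet.{u}} (hx : InH κ x) (hy : InH κ y) :
    InH κ ({x, y} : ZFSet.{u}) := by
  refine InH.of_mem hκ ?_ ?_
  · intro z hz
    rw [ZFSet.mem_pair] at hz
    rcases hz with rfl | rfl
    · exact hx
    · exact hy
  · refine (ZFSet.card_insert_le).trans_lt ?_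
    rw [ZFSet.card_singleton]
    have h1 : (1 + 1 : Cardinal.{u}) < ℵ₀ := by
      rw [one_add_one_eq_two]
      exact Cardinal.nat_lt_aleph0 2
    exact h1.trans_le hκ.aleph0_le

theorem InH.pair (hκ : κ.IsRegular) {x y : ZFSet.{u}} (hx : InH κ x) (hy : InH κ y) :
    InH κ (ZFSet.pair x y) := by
  rw [ZFSet.pair]
  refine InH.upair hκ ?_ (InH.upair hκ hx hy)
  rw [← ZFSet.pair_eq_singleton]
  exact InH.upair hκ hx hx

theorem InH.range (hκ : κ.IsRegular) {α : Type u} (hα : #α < κ) (f : α → ZFSet.{u})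
    (h : ∀ a, InH κ (f a)) : InH κ (ZFSet.range f) := by
  refine InH.of_mem hκ ?_ ?_
  · intro y hy
    rw [ZFSet.mem_range] at hy
    obtain ⟨a, rfl⟩ := hy
    exact h a
  · have h1 := ZFSet.lift_card_range_le (f := f)
    rw [Cardinal.lift_id, Cardinal.lift_id] at h1
    exact h1.trans_lt hα

theorem InH.cod {lam : Cardinal.{u}} (h : lam.ord ≤ κ.ord) (l : lam.ord.ToType) :
    InH κ (cod l) := InH.ord ((ToType.toOrd l).2.trans_le h)

theorem InH.rel2 {lam : Cardinal.{u}} (hκ : κ.IsRegular) (h : lam < κ) (h0 : ℵ₀ ≤ lam)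
    (A : lam.ord.ToType → lam.ord.ToType → Prop) : InH κ (rel2 A) := by
  refine InH.range hκ ?_ _ ?_
  · refine (mk_subtype_le _).trans_lt ?_
    rw [mk_prod, Cardinal.lift_id, mk_ord_toType, mul_eq_self h0]
    exact h
  · intro p
    exact InH.pair hκ (InH.cod (ord_le_ord.2 h.le) _) (InH.cod (ord_le_ord.2 h.le) _)

theorem InH.rel3 {lam : Cardinal.{u}} (hκ : κ.IsRegular) (h : lam < κ) (h0 : ℵ₀ ≤ lam)
    (A : lam.ord.ToType → lam.ord.ToType → lam.ord.ToType → Prop) : InH κ (rel3 A) := by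
  refine InH.range hκ ?_ _ ?_
  · refine (mk_subtype_le _).trans_lt ?_
    simp only [mk_prod, Cardinal.lift_id]
    rw [mk_ord_toType, mul_eq_self h0, mul_eq_self h0]
    exact h
  · intro p
    exact InH.pair hκ (InH.cod (ord_le_ord.2 h.le) _) (InH.pair hκ
      (InH.cod (ord_le_ord.2 h.le) _) (InH.cod (ord_le_ord.2 h.le) _))

end InH

/-- `CovLe μ ν lam`: there is a family of at most `lam` functions from `μ` to `ν` such that every
function from `μ` to `ν` is covered by fewer than `μ` members of the family. -/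
def CovLe (μ ν lam : Cardinal.{u}) : Prop :=
  ∃ H : Set (μ.ord.ToType → ν.ord.ToType), #H ≤ lam ∧
    ∀ g : μ.ord.ToType → ν.ord.ToType, ∃ S : Set (μ.ord.ToType → ν.ord.ToType), S ⊆ H ∧ #S < μ ∧
      ∀ i, ∃ h ∈ S, h i = g i

theorem exists_H {μ lam : Cardinal.{u}} {Λ : μ.ord.ToType → lam.ord.ToType} (hΛ : Cofn Λ)
    (hlam : ℵ₀ ≤ lam) (hcov : ∀ ν < lam, CovLe μ ν lam) :
    ∃ H : ∀ j : μ.ord.ToType, Set (μ.ord.ToType → Iio (Λ j)), HCov Λ H ∧ (∀ j, #(H j) ≤ lam) ∧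
      ∀ j, (fun _ => hΛ.dflt j) ∈ H j := by
  have h1 : ∀ j : μ.ord.ToType, ∃ H : Set (μ.ord.ToType → Iio (Λ j)),
      (∀ g : μ.ord.ToType → Iio (Λ j), ∃ (ι : Type u) (h : ι → H), #ι < #μ.ord.ToType ∧
        ∀ i, ∃ x, (h x).1 i = g i) ∧ #H ≤ lam ∧ (fun _ => hΛ.dflt j) ∈ H := by
    intro j
    obtain ⟨H, hH1, hH2⟩ := hcov #(Iio (Λ j)) (mk_Iio_toType_ord_lt (Λ j))
    have h2 : #(Iio (Λ j)) = #(#(Iio (Λ j))).ord.ToType := (mk_ord_toType _).symm
    obtain ⟨e⟩ := Cardinal.eq.1 h2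
    refine ⟨insert (fun _ => hΛ.dflt j) ((fun h i => e.symm (h i)) '' H), ?_, ?_, mem_insert _ _⟩
    · intro g
      obtain ⟨S, hS1, hS2, hS3⟩ := hH2 (fun i => e (g i))
      refine ⟨S, fun s => ⟨fun i => e.symm (s.1 i), mem_insert_of_mem _ ⟨s.1, hS1 s.2, rfl⟩⟩,
        by rwa [mk_ord_toType], ?_⟩
      intro i
      obtain ⟨h, hh1, hh2⟩ := hS3 i
      exact ⟨⟨h, hh1⟩, by simp [hh2]⟩
    · refine mk_insert_le.trans ?_
      exact add_le_of_le hlam (mk_image_le.trans hH1) (one_lt_aleph0.le.trans hlam)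
  choose H hH1 hH2 hH3 using h1
  exact ⟨H, hH1, hH2, hH3⟩

theorem main_core (lam : Cardinal.{u}) (h1 : ℵ₀ < lam.ord.cof) (h2 : lam.ord.cof < lam)
    (h3 : (2 : Cardinal.{u}) ^ ((2 : Cardinal.{u}) ^ lam.ord.cof) ≤ lam)
    (h4 : ∀ ν < lam, CovLe lam.ord.cof ν lam) : ¬ BoldSigColouring 1 (Order.succ lam) := by
  intro hcol
  have hlam0 : ℵ₀ < lam := h1.trans h2
  have hlam : ℵ₀ ≤ lam := hlam0.le
  set μ := lam.ord.cof with hμ
  have hM : RegIdx μ.ord.ToType := regIdx h1 (by rw [hμ]; exact cof_ord_cof _)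
  have hcM : #μ.ord.ToType = μ := mk_ord_toType μ
  have hcL : #(lam.ord.ToType) = lam := mk_ord_toType lam
  obtain ⟨lw, hlw⟩ := exists_lw hlam0
  obtain ⟨Λ, hΛ, hinf⟩ := exists_cofn (L := lam.ord.ToType) hM
    (by rw [cof_toType, hcM]) lw hlw
  obtain ⟨H, hH1, hH2, hH3⟩ := exists_H hΛ hlam h4
  haveI : Nonempty μ.ord.ToType := by
    rw [← mk_ne_zero_iff, hcM]
    exact (aleph0_pos.trans h1).ne'
  haveI : Nonempty lam.ord.ToType := ⟨lw⟩
  let j0 : μ.ord.ToType := Classical.arbitrary _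
  let t0 : PD Λ H := ⟨j0, ⟨Set.univ, NS.univ_notMem hM⟩, ⟨_, hH3 j0⟩⟩
  haveI : Nonempty (PD Λ H) := ⟨t0⟩
  have hSS : #(Set (Set μ.ord.ToType)) ≤ lam := by
    rw [mk_set, mk_set, hcM]; exact h3
  have hS1 : #(Set μ.ord.ToType) ≤ lam := by
    refine le_trans ?_ hSS
    rw [mk_set (α := Set μ.ord.ToType)]
    exact (cantor _).le
  have hPD : #(PD Λ H) ≤ #(lam.ord.ToType) := by
    refine mk_PD ?_ ?_ ?_
    · rwa [hcL]
    · rwa [hcL]
    · intro j; rw [hcL]; exact hH2 j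
  obtain ⟨decD, hdecD⟩ := exists_surj hPD
  obtain ⟨decS, hdecS⟩ := exists_surj (α := lam.ord.ToType) (β := Set (Set μ.ord.ToType))
    (by rwa [hcL])
  obtain ⟨decT, hdecT⟩ := exists_surj (α := lam.ord.ToType) (β := Set μ.ord.ToType)
    (by rwa [hcL])
  obtain ⟨decK, hdecK⟩ := exists_surj (α := lam.ord.ToType)
    (β := Set (Set μ.ord.ToType) × lam.ord.ToType × Bool) (by
      simp only [mk_prod, Cardinal.lift_id, Cardinal.lift_uzero, hcL]
      refine (mul_le_mul' hSS (mul_le_mul' le_rfl (?_ : _ ≤ lam))).trans ?_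
      · simp only [mk_bool, Cardinal.lift_ofNat]
        exact (Cardinal.nat_lt_aleph0 2).le.trans hlam
      · rw [mul_eq_self hlam, mul_eq_self hlam])
  obtain ⟨pt⟩ := exists_points hΛ (by rw [hcM, hcL]; exact h2.le) (by rwa [hcL])
  obtain ⟨φ, hφ⟩ := exists_phi hinf
  let S := (mkPieces hM hΛ H hH1).comap decD hdecD
  obtain ⟨t, ht⟩ := hdecD t0
  have ht1 : S.dom t = Set.univ := by
    change (decD t).2.1.1 = Set.univ
    rw [ht]
  have ht2 : ∀ i, S.val t i = hΛ.dflt i := by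
    intro i
    change (mkPieces hM hΛ H hH1).val (decD t) i = _
    rw [ht]
    have h5 : ((hΛ.dflt j0 : Iio (Λ j0)) : lam.ord.ToType) < Λ i := (hΛ.dflt i).2
    simp only [mkPieces, t0]
    rw [dif_pos h5]
    rfl
  have hκ : (Order.succ lam).IsRegular := isRegular_succ hlam
  obtain ⟨Φ, hΦ⟩ := exists_sig1.{u}
  let z : Fin 12 → ZFSet.{u} := ![lam.ord.toZFSet, rel2 (rA1 S decK), rel3 (rA2 S decK),
    rel3 (rA3 S pt φ decK), rel2 (rA4 S pt), rel2 (rA5 pt), rel2 (rA6 S decS),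
    rel2 (rA7 decS decT), rel2 (rA8 S decT), cod t, {∅}, ∅]
  have hlt : lam < Order.succ lam := Order.lt_succ lam
  have hr2 := fun A => InH.rel2 (lam := lam) hκ hlt hlam A
  have hr3 := fun A => InH.rel3 (lam := lam) hκ hlt hlam A
  have hemp : InH (Order.succ lam) (∅ : ZFSet.{u}) := by
    have := InH.ord (κ := Order.succ lam) (o := 0) (by
      rw [lt_ord]; simp)
    simpa using this
  have hz : ∀ j, InH (Order.succ lam) (z j) := by
    intro j
    fin_cases j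
    · exact InH.ord (ord_strictMono hlt)
    · exact hr2 _
    · exact hr3 _
    · exact hr3 _
    · exact hr2 _
    · exact hr2 _
    · exact hr2 _
    · exact hr2 _
    · exact hr2 _
    · exact InH.cod (ord_le_ord.2 hlt.le) t
    · change InH (Order.succ lam) ({∅} : ZFSet.{u})
      rw [← ZFSet.pair_eq_singleton]
      exact InH.upair hκ hemp hemp
    · exact hemp
  have hpart : IsSigPartition 1 (Order.succ lam) z (col S pt φ decK t) := by
    refine ⟨Φ, ?_⟩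
    intro α β hab hβ y
    rw [hΦ, ← colL_iff hM hlam hΛ hinf ht1 ht2 hdecS hdecT hab hβ y]
    exact psi_iff t (hab.trans hβ) hβ y
  obtain ⟨Hs, hHs1, hHs2, y, hy⟩ := hcol 12 z hz (col S pt φ decK t)
    (fun α β _ _ => col_or α β) hpart
  refine sierpinski hκ (by rw [hcL]; exact hlt) (GG S pt φ decK t)
    (GG_inj hM hlam hΛ hinf ht1 ht2 hφ hdecK) Hs hHs1 hHs2.ge (y = {∅}) ?_
  intro α hα β hβ hab
  rw [← col_eq_one, hy α hα β hβ hab]

end Pool.Agent.W5h77.Sg
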