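import Pool.Agent.W5h77.Sg.Inj

/-!
The nonstationary ideal on a regular uncountable well-order, and the family of pieces.
-/

namespace Pool.Agent.W5h77.Sg

universe u v w

open Set Cardinal Ordinal

/-- A well-order of regular uncountable length. -/
structure RegIdx (M : Type u) [LinearOrder M] [WellFoundedLT M] : Prop where
  bdd : ∀ (ι : Type u) (h : ι → M), #ι < #M → ∃ b, ∀ x, h x < b
  unc : ℵ₀ < #M
  ini : ∀ k : M, #(Iic k) < #M

section NS

variable {M : Type u} [LinearOrder M] [WellFoundedLT M]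

/-- The nonstationary ideal. -/
def NS (M : Type u) [LinearOrder M] : Set (Set M) :=
  {N | ∃ h : M → M, ∀ i ∈ N, (∃ k, k < i) → ∃ k < i, i ≤ h k}

omit [WellFoundedLT M] in
theorem NS.mono {A B : Set M} (h : A ⊆ B) (hB : B ∈ NS M) : A ∈ NS M := by
  obtain ⟨f, hf⟩ := hB
  exact ⟨f, fun i hi => hf i (h hi)⟩

theorem NS.iUnion (hM : RegIdx M) {ι : Type u} (hι : #ι < #M) (A : ι → Set M)
    (hA : ∀ x, A x ∈ NS M) : (⋃ x, A x) ∈ NS M := by
  choose h hh using hA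
  have h1 : ∀ k, ∃ b, ∀ x, h x k < b := fun k => hM.bdd ι (fun x => h x k) hι
  choose b hb using h1
  refine ⟨b, ?_⟩
  intro i hi hk
  obtain ⟨x, hx⟩ := mem_iUnion.1 hi
  obtain ⟨k, hk1, hk2⟩ := hh x i hx hk
  exact ⟨k, hk1, hk2.trans (hb k x).le⟩

theorem NS.sideal (hM : RegIdx M) : SIdeal (NS M) where
  mono := NS.mono
  empty := ⟨id, by simp⟩
  iUnion := by
    intro A hA
    have h1 := NS.iUnion hM (ι := ULift.{u} ℕ) (by simpa using hM.unc) (fun n => A n.down)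
      (fun n => hA n.down)
    refine NS.mono ?_ h1
    intro i hi
    obtain ⟨n, hn⟩ := mem_iUnion.1 hi
    exact mem_iUnion.2 ⟨⟨n⟩, hn⟩

theorem NS.diag (hM : RegIdx M) {N : Set M} (p : M → M)
    (hp : ∀ i ∈ N, (∃ k, k < i) → p i < i) (hN : ∀ k, {i | i ∈ N ∧ p i = k} ∈ NS M) :
    N ∈ NS M := by
  choose h hh using hN
  have h1 : ∀ k : M, ∃ b, ∀ x : Iic k × Iic k, h x.1.1 x.2.1 < b := by
    intro k
    refine hM.bdd (Iic k × Iic k) (fun x => h x.1.1 x.2.1) ?_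
    rw [mk_prod, Cardinal.lift_id]
    exact mul_lt_of_lt hM.unc.le (hM.ini k) (hM.ini k)
  choose b hb using h1
  refine ⟨b, ?_⟩
  intro i hi hk
  have h2 := hp i hi hk
  obtain ⟨k, hk1, hk2⟩ := hh (p i) i ⟨hi, rfl⟩ hk
  refine ⟨max k (p i), max_lt hk1 h2, hk2.trans ?_⟩
  exact (hb (max k (p i)) (⟨p i, le_max_right _ _⟩, ⟨k, le_max_left _ _⟩)).le

omit [WellFoundedLT M] in
theorem NS.bounded (b : M) : {i | i ≤ b} ∈ NS M :=
  ⟨fun _ => b, fun _ hi hk => by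
    obtain ⟨k, hk⟩ := hk
    exact ⟨k, hk, hi⟩⟩

/-- Limit points. -/
def IsLim (i : M) : Prop := (∃ k, k < i) ∧ ¬ ∃ k < i, ∀ j < i, j ≤ k

theorem NS.notLim (hM : RegIdx M) : {i : M | ¬ IsLim i} ∈ NS M := by
  have h1 : ∀ k : M, ∃ b, k < b := by
    intro k
    obtain ⟨b, hb⟩ := hM.bdd PUnit (fun _ => k) (by simpa using one_lt_aleph0.trans hM.unc)
    exact ⟨b, hb ⟨⟩⟩
  have h2 : ∀ k : M, ∃ b, k < b ∧ ∀ j, k < j → b ≤ j := by
    intro k
    obtain ⟨b, hb1, hb2⟩ := (wellFounded_lt (α := M)).has_min {b | k < b} (h1 k)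
    exact ⟨b, hb1, fun j hj => not_lt.1 (hb2 j hj)⟩
  choose b hb1 hb2 using h2
  refine ⟨b, ?_⟩
  intro i hi hk
  have h3 : ∃ k < i, ∀ j < i, j ≤ k := by
    by_contra hcon
    exact hi ⟨hk, hcon⟩
  obtain ⟨k, hk1, hk2⟩ := h3
  refine ⟨k, hk1, ?_⟩
  by_contra hlt
  rw [not_le] at hlt
  exact absurd (hb1 k) (not_lt.2 (hk2 _ hlt))

theorem NS.univ_notMem (hM : RegIdx M) : (Set.univ : Set M) ∉ NS M := by
  rintro ⟨h, hh⟩
  have h1 : ∀ k : M, ∃ b, k < b ∧ ∀ j ≤ k, h j < b := by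
    intro k
    obtain ⟨b1, hb1⟩ := hM.bdd PUnit (fun _ => k) (by simpa using one_lt_aleph0.trans hM.unc)
    obtain ⟨b2, hb2⟩ := hM.bdd (Iic k) (fun x => h x.1) (hM.ini k)
    exact ⟨max b1 b2, lt_max_of_lt_left (hb1 ⟨⟩), fun j hj => lt_max_of_lt_right (hb2 ⟨j, hj⟩)⟩
  choose b hb1 hb2 using h1
  have hne : Nonempty M := by
    by_contra hcon
    rw [not_nonempty_iff] at hcon
    have := hM.unc
    simp at this
  let s : ℕ → M := fun n => b^[n] (Classical.arbitrary M)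
  have hs : ∀ n, s (n + 1) = b (s n) := fun n => Function.iterate_succ_apply' _ _ _
  obtain ⟨c, hc⟩ := hM.bdd (ULift.{u} ℕ) (fun n => s n.down) (by simpa using hM.unc)
  obtain ⟨i, hi1, hi2⟩ := (wellFounded_lt (α := M)).has_min {i | ∀ n, s n < i}
    ⟨c, fun n => hc ⟨n⟩⟩
  obtain ⟨k, hk1, hk2⟩ := hh i (mem_univ _) ⟨s 0, hi1 0⟩
  have h2 : ∃ n, k ≤ s n := by
    by_contra hcon
    push Not at hcon
    exact hi2 k hcon hk1
  obtain ⟨n, hn⟩ := h2
  have h3 := hb2 (s n) k hn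
  rw [← hs n] at h3
  exact absurd (h3.trans (hi1 (n + 1))) (not_lt.2 hk2)

end NS

section Pieces

variable {M L : Type u} [LinearOrder M] [WellFoundedLT M] [LinearOrder L]

/-- A continuous increasing cofinal sequence. -/
structure Cofn (Λ : M → L) : Prop where
  mono : ∀ i j, i ≤ j → Λ i ≤ Λ j
  cof : ∀ l, ∃ i, l < Λ i
  lim : ∀ i, IsLim i → ∀ l < Λ i, ∃ j < i, l < Λ j
  ne : ∃ l, ∀ i, l < Λ i

variable {Λ : M → L}

/-- Default point. -/
noncomputable def Cofn.dflt (hΛ : Cofn Λ) (i : M) : Iio (Λ i) :=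
  ⟨hΛ.ne.choose, hΛ.ne.choose_spec i⟩

/-- The index type of pieces. -/
abbrev PD (Λ : M → L) (H : ∀ j : M, Set (M → Iio (Λ j))) : Type u :=
  Σ j : M, {Y : Set M // Y ∉ NS M} × H j

/-- Every function into `Iio (Λ j)` is covered by few members of `H j`. -/
def HCov (Λ : M → L) (H : ∀ j : M, Set (M → Iio (Λ j))) : Prop :=
  ∀ j, ∀ g : M → Iio (Λ j), ∃ (ι : Type u) (h : ι → H j), #ι < #M ∧ ∀ i, ∃ x, (h x).1 i = g i

open Classical in
/-- The pieces. -/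
noncomputable def mkPieces (hM : RegIdx M) (hΛ : Cofn Λ) (H : ∀ j : M, Set (M → Iio (Λ j)))
    (hH : HCov Λ H) : Pieces (NS M) (fun i => Iio (Λ i)) (PD Λ H) where
  dom d := d.2.1.1
  val d i := if h : (d.2.2.1 i : L) < Λ i then ⟨d.2.2.1 i, h⟩ else hΛ.dflt i
  pos d := d.2.1.2
  restr d Z hZ hZI := ⟨⟨d.1, ⟨Z, hZI⟩, d.2.2⟩, rfl, fun _ _ => rfl⟩
  part := by
    intro X δ
    have h1 : ∀ i, ∃ j, IsLim i → j < i ∧ (δ i : L) < Λ j := by
      intro i
      by_cases hi : IsLim i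
      · obtain ⟨j, hj1, hj2⟩ := hΛ.lim i hi _ (δ i).2
        exact ⟨j, fun _ => ⟨hj1, hj2⟩⟩
      · exact ⟨i, fun h => absurd h hi⟩
    choose p hp using h1
    let g : ∀ j : M, M → Iio (Λ j) := fun j i =>
      if h : (δ i : L) < Λ j then ⟨δ i, h⟩ else hΛ.dflt j
    have h2 := fun j => hH j (g j)
    choose ι h hι hcov using h2
    choose x hx using hcov
    let Y : ∀ j : M, ι j → Set M := fun j y => {i | (i ∈ X ∧ IsLim i) ∧ p i = j ∧ x j i = y}
    refine ⟨{Z | (∃ j y, Z = Y j y) ∧ Z ∉ NS M}, ⟨?_, ?_, ?_, ?_⟩, ?_⟩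
    · rintro Z ⟨⟨j, y, rfl⟩, _⟩ i hi
      exact hi.1.1
    · exact fun Z hZ => hZ.2
    · rintro Z ⟨⟨j, y, rfl⟩, _⟩ Z' ⟨⟨j', y', rfl⟩, _⟩ i hi hi'
      obtain ⟨_, rfl, rfl⟩ := hi
      obtain ⟨_, rfl, rfl⟩ := hi'
      rfl
    · intro N hN hNY
      have h3 : {i | i ∈ N ∧ IsLim i} ∈ NS M := by
        refine NS.diag hM p ?_ ?_
        · rintro i ⟨_, hi⟩ _
          exact (hp i hi).1
        · intro j
          have h4 : (⋃ y, N ∩ Y j y) ∈ NS M := by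
            refine NS.iUnion hM (hι j) _ ?_
            intro y
            by_cases hy : Y j y ∈ NS M
            · exact NS.mono inter_subset_right hy
            · exact hNY _ ⟨⟨j, y, rfl⟩, hy⟩
          refine NS.mono ?_ h4
          rintro i ⟨⟨hi1, hi2⟩, hi3⟩
          exact mem_iUnion.2 ⟨x j i, hi1, ⟨hN hi1, hi2⟩, hi3, rfl⟩
      refine NS.mono ?_ ((NS.sideal hM).union h3 (NS.notLim hM))
      intro i hi
      by_cases hl : IsLim i
      · exact Or.inl ⟨hi, hl⟩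
      · exact Or.inr hl
    · rintro Z ⟨⟨j, y, rfl⟩, hZ⟩
      refine ⟨⟨j, ⟨Y j y, hZ⟩, h j y⟩, rfl, ?_⟩
      rintro i ⟨⟨_, hi2⟩, hi3, hi4⟩
      have h5 := hx j i
      rw [hi4] at h5
      have h6 : (δ i : L) < Λ j := by
        rw [← hi3]
        exact (hp i hi2).2
      have h7 : (((h j y).1 i : Iio (Λ j)) : L) = δ i := by
        rw [h5]
        simp only [g, dif_pos h6]
      have h8 : (((h j y).1 i : Iio (Λ j)) : L) < Λ i := by
        rw [h7]; exact (δ i).2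
      simp only [dif_pos h8]
      exact Subtype.ext h7

end Pieces

end Pool.Agent.W5h77.Sg
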