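import Mathlib

/-!
Galvin-Hajnal norms relative to a sigma-complete ideal, in a predicate form
(`Ge I X γ f` says that the norm of `f` on the set `X` is at least `γ`).
-/

namespace Pool.Agent.W5h77.Sg

universe u v w

open Set Cardinal Ordinal

/-- A sigma-complete ideal of sets. -/
structure SIdeal {M : Type u} (I : Set (Set M)) : Prop where
  mono : ∀ {A B : Set M}, A ⊆ B → B ∈ I → A ∈ I
  empty : (∅ : Set M) ∈ I
  iUnion : ∀ A : ℕ → Set M, (∀ n, A n ∈ I) → (⋃ n, A n) ∈ I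

namespace SIdeal
variable {M : Type u} {I : Set (Set M)}

theorem union (hI : SIdeal I) {A B : Set M} (hA : A ∈ I) (hB : B ∈ I) : A ∪ B ∈ I := by
  have h := hI.iUnion (fun n => if n = 0 then A else B) (by
    intro n
    by_cases hn : n = 0
    · simp [hn, hA]
    · simp [hn, hB])
  refine hI.mono ?_ h
  rintro i (hi | hi)
  · exact mem_iUnion.2 ⟨0, by simpa using hi⟩
  · exact mem_iUnion.2 ⟨1, by simpa using hi⟩

end SIdeal

section norm

variable {M V : Type u} [LinearOrder V]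

/-- `g` is below `f` on `X` modulo `I`. -/
def Lt (I : Set (Set M)) (X : Set M) (g f : M → V) : Prop := {i | i ∈ X ∧ ¬ g i < f i} ∈ I

/-- The norm of `f` on `X` modulo `I` is at least `γ`. -/
def Ge (I : Set (Set M)) (X : Set M) (γ : Ordinal.{u}) (f : M → V) : Prop :=
  ∀ γ', (_ : γ' < γ) → ∃ g, Lt I X g f ∧ Ge I X γ' g
termination_by γ

variable {I : Set (Set M)} {X X' : Set M} {γ γ' : Ordinal.{u}} {f f' g h : M → V}

theorem ge_iff : Ge I X γ f ↔ ∀ γ' < γ, ∃ g, Lt I X g f ∧ Ge I X γ' g := by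
  rw [Ge]

theorem ge_mono_ord (hg : Ge I X γ f) (h : γ' ≤ γ) : Ge I X γ' f := by
  rw [ge_iff] at hg ⊢
  exact fun δ hδ => hg δ (hδ.trans_le h)

theorem ge_zero : Ge I X 0 f := by
  rw [ge_iff]
  exact fun δ hδ => absurd hδ (not_lt.2 (zero_le (a := δ)))

theorem Lt.trans (hI : SIdeal I) (h1 : Lt I X h g) (h2 : Lt I X g f) : Lt I X h f := by
  refine hI.mono ?_ (hI.union h1 h2)
  rintro i ⟨hi, hn⟩
  by_cases h3 : h i < g i
  · exact Or.inr ⟨hi, fun h4 => hn (h3.trans h4)⟩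
  · exact Or.inl ⟨hi, h3⟩

theorem Lt.mono_set (hI : SIdeal I) (hs : X' ⊆ X) (h1 : Lt I X g f) : Lt I X' g f := by
  refine hI.mono ?_ h1
  rintro i ⟨h2, h3⟩
  exact ⟨hs h2, h3⟩

theorem ge_mono_fun (hI : SIdeal I) (hle : ∀ i ∈ X, f i ≤ f' i) (hg : Ge I X γ f) :
    Ge I X γ f' := by
  rw [ge_iff] at hg ⊢
  intro δ hδ
  obtain ⟨g, h1, h2⟩ := hg δ hδ
  refine ⟨g, hI.mono ?_ h1, h2⟩
  rintro i ⟨h3, h4⟩
  exact ⟨h3, fun h5 => h4 (h5.trans_le (hle i h3))⟩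

theorem ge_subset (hI : SIdeal I) (hs : X' ⊆ X) (hg : Ge I X γ f) : Ge I X' γ f := by
  induction γ using WellFoundedLT.induction generalizing f with
  | ind γ ih =>
    rw [ge_iff] at hg ⊢
    intro δ hδ
    obtain ⟨g, h1, h2⟩ := hg δ hδ
    exact ⟨g, h1.mono_set hI hs, ih δ hδ h2⟩

/-- A cover of `X`, modulo `I`, by pairwise disjoint `I`-positive sets, such that a set which is
small on every piece is small. -/
structure Cover (I : Set (Set M)) (X : Set M) (C : Set (Set M)) : Prop where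
  sub : ∀ Y ∈ C, Y ⊆ X
  pos : ∀ Y ∈ C, Y ∉ I
  disj : ∀ Y ∈ C, ∀ Y' ∈ C, ∀ i, i ∈ Y → i ∈ Y' → Y = Y'
  null : ∀ N ⊆ X, (∀ Y ∈ C, N ∩ Y ∈ I) → N ∈ I

open Classical in
theorem glue (hI : SIdeal I) {C : Set (Set M)} (hC : Cover I X C)
    (hg : ∀ Y ∈ C, Ge I Y γ f) : Ge I X γ f := by
  induction γ using WellFoundedLT.induction generalizing f with
  | ind γ ih =>
    rw [ge_iff]
    intro δ hδ
    have h1 : ∀ Y : C, ∃ g, Lt I Y.1 g f ∧ Ge I Y.1 δ g := by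
      intro Y
      have := hg Y.1 Y.2
      rw [ge_iff] at this
      exact this δ hδ
    choose G hG1 hG2 using h1
    let g : M → V := fun i => if h : ∃ Y : C, i ∈ Y.1 then G h.choose i else f i
    have hgY : ∀ Y : C, ∀ i ∈ Y.1, g i = G Y i := by
      intro Y i hi
      have h : ∃ Y : C, i ∈ Y.1 := ⟨Y, hi⟩
      have h2 : h.choose = Y := Subtype.ext
        (hC.disj _ h.choose.2 _ Y.2 i h.choose_spec hi)
      simp only [g, dif_pos h, h2]
    refine ⟨g, ?_, ih δ hδ ?_⟩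
    · refine hC.null _ (fun i hi => hi.1) ?_
      intro Y hY
      refine hI.mono ?_ (hG1 ⟨Y, hY⟩)
      rintro i ⟨⟨_, h2⟩, h3⟩
      refine ⟨h3, ?_⟩
      rwa [hgY ⟨Y, hY⟩ i h3] at h2
    · intro Y hY
      refine ge_mono_fun hI ?_ (hG2 ⟨Y, hY⟩)
      intro i hi
      rw [hgY ⟨Y, hY⟩ i hi]

variable [WellFoundedLT V]

theorem wf_lt (hI : SIdeal I) (hX : X ∉ I) : WellFounded (Lt I X : (M → V) → (M → V) → Prop) := by
  rw [wellFounded_iff_isEmpty_descending_chain]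
  refine ⟨?_⟩
  rintro ⟨s, hs⟩
  have h1 : (⋃ n, {i | i ∈ X ∧ ¬ s (n + 1) i < s n i}) ∈ I := hI.iUnion _ hs
  have h2 : ∃ i ∈ X, ∀ n, s (n + 1) i < s n i := by
    by_contra hcon
    push Not at hcon
    apply hX
    refine hI.mono ?_ h1
    intro i hi
    obtain ⟨n, hn⟩ := hcon i hi
    exact mem_iUnion.2 ⟨n, hi, not_lt.2 hn⟩
  obtain ⟨i, _, hi⟩ := h2
  have h3 := (wellFounded_lt (α := V))
  rw [wellFounded_iff_isEmpty_descending_chain] at h3
  exact h3.false ⟨fun n => s n i, hi⟩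

theorem exists_not_ge (hI : SIdeal I) (hX : X ∉ I) (f : M → V) : ∃ γ, ¬ Ge I X γ f := by
  induction f using (wf_lt (V := V) hI hX).induction with
  | _ f ih =>
    choose G hG using ih
    let γs : Ordinal.{u} := ⨆ g : {g : M → V // Lt I X g f}, G g.1 g.2
    refine ⟨γs + 1, ?_⟩
    rw [ge_iff]
    intro hc
    obtain ⟨g, h1, h2⟩ := hc γs (lt_add_one γs)
    exact hG g h1 (ge_mono_ord h2 (Ordinal.le_iSup (fun g : {g : M → V // Lt I X g f} => G g.1 g.2)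
      ⟨g, h1⟩))

/-- The norm of `f` on `X` modulo `I`. -/
noncomputable def nrm (I : Set (Set M)) (X : Set M) (f : M → V) : Ordinal.{u} :=
  sInf {γ | ¬ Ge I X (γ + 1) f}

theorem nrm_spec (hI : SIdeal I) (hX : X ∉ I) (f : M → V) :
    Ge I X (nrm I X f) f ∧ ¬ Ge I X (nrm I X f + 1) f := by
  have hne : {γ : Ordinal.{u} | ¬ Ge I X (γ + 1) f}.Nonempty := by
    obtain ⟨γ, hγ⟩ := exists_not_ge hI hX f
    exact ⟨γ, fun h => hγ (ge_mono_ord h (le_of_lt (lt_add_one γ)))⟩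
  refine ⟨?_, csInf_mem hne⟩
  rw [ge_iff]
  intro δ hδ
  have h1 : Ge I X (δ + 1) f := by
    by_contra hc
    exact absurd (csInf_le (OrderBot.bddBelow _) hc : nrm I X f ≤ δ) (not_le.2 hδ)
  rw [ge_iff] at h1
  exact h1 δ (lt_add_one δ)

theorem le_nrm_iff (hI : SIdeal I) (hX : X ∉ I) : γ ≤ nrm I X f ↔ Ge I X γ f := by
  constructor
  · intro h
    exact ge_mono_ord (nrm_spec hI hX f).1 h
  · intro h
    by_contra hc
    exact (nrm_spec hI hX f).2 (ge_mono_ord h (Order.add_one_le_of_lt (not_le.1 hc)))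

theorem nrm_lt_iff (hI : SIdeal I) (hX : X ∉ I) : nrm I X f < γ ↔ ¬ Ge I X γ f := by
  rw [← le_nrm_iff hI hX, not_le]

theorem nrm_mono_set (hI : SIdeal I) (hX' : X' ∉ I) (hs : X' ⊆ X) :
    nrm I X f ≤ nrm I X' f := by
  have hX : X ∉ I := fun h => hX' (hI.mono hs h)
  rw [le_nrm_iff hI hX']
  exact ge_subset hI hs (nrm_spec hI hX f).1

theorem nrm_mono_fun (hI : SIdeal I) (hX : X ∉ I) (hle : ∀ i ∈ X, f i ≤ f' i) :
    nrm I X f ≤ nrm I X f' := by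
  rw [le_nrm_iff hI hX]
  exact ge_mono_fun hI hle (nrm_spec hI hX f).1

theorem nrm_congr (hI : SIdeal I) (hX : X ∉ I) (hle : ∀ i ∈ X, f i = f' i) :
    nrm I X f = nrm I X f' :=
  le_antisymm (nrm_mono_fun hI hX fun i hi => (hle i hi).le)
    (nrm_mono_fun hI hX fun i hi => (hle i hi).ge)

theorem nrm_lt_of_lt (hI : SIdeal I) (hX : X ∉ I) (h : Lt I X g f) : nrm I X g < nrm I X f := by
  rw [← Order.add_one_le_iff, le_nrm_iff hI hX, ge_iff]
  intro δ hδ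
  exact ⟨g, h, ge_mono_ord (nrm_spec hI hX g).1 (Order.lt_add_one_iff.1 hδ)⟩

theorem exists_nrm_eq (hI : SIdeal I) (hX : X ∉ I) (h : γ < nrm I X f) :
    ∃ g, Lt I X g f ∧ nrm I X g = γ := by
  have h1 := (nrm_spec hI hX f).1
  rw [ge_iff] at h1
  obtain ⟨g0, h2⟩ := h1 γ h
  obtain ⟨g, ⟨hg1, hg2⟩, hmin⟩ := (wf_lt (V := V) hI hX).has_min
    {g | Lt I X g f ∧ Ge I X γ g} ⟨g0, h2⟩
  refine ⟨g, hg1, le_antisymm ?_ ((le_nrm_iff hI hX).2 hg2)⟩
  by_contra hc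
  rw [not_le] at hc
  have h3 := (nrm_spec hI hX g).1
  rw [ge_iff] at h3
  obtain ⟨g', h4, h5⟩ := h3 γ hc
  exact hmin g' ⟨h4.trans hI hg1, h5⟩ h4

end norm

end Pool.Agent.W5h77.Sg
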