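import Pool.Agent.W5h77.Sg.D0

/-!
The `Σ_0` matrix of the formula defining the colouring.
-/

namespace Pool.Agent.W5h77.Sg

universe u

open Cardinal Ordinal Set

/-- Pairs in a set. -/
abbrev mP (a b A : ZFSet.{u}) : Prop := ZFSet.pair a b ∈ A
/-- Triples in a set. -/
abbrev mT (a b c A : ZFSet.{u}) : Prop := ZFSet.pair a (ZFSet.pair b c) ∈ A

def ZCertC (lam A5 C : ZFSet.{u}) : Prop :=
  (∀ p ∈ lam, ∃ v ∈ lam, mP p v C) ∧
  (∀ p ∈ lam, ∀ v ∈ lam, ∀ w ∈ lam, mP p v C → mP p w C → v = w) ∧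
  (∀ p ∈ lam, ∀ v ∈ lam, mP p v C → ∀ w ∈ v, ∃ q ∈ lam, mP p q A5 ∧ mP q w C)

def ZLt (lam A4 A5 C e x : ZFSet.{u}) : Prop :=
  ∀ p ∈ lam, ∀ q ∈ lam, mP e p A4 → mP x q A4 → mP p q A5 →
    ∀ v ∈ lam, ∀ w ∈ lam, mP p v C → mP q w C → v ∈ w

def ZPhi (lam kap A4 A5 A6 A7 A8 C R g x : ZFSet.{u}) : Prop :=
  ∃ s ∈ lam, mP x s A6 ∧ ∀ t ∈ lam, mP s t A7 → ∃ e ∈ lam, mP e t A8 ∧
    ZLt lam A4 A5 C e x ∧ ∃ h ∈ kap, mP e h R ∧ ¬ h ∈ g

def ZCertR (lam kap A4 A5 A6 A7 A8 C R : ZFSet.{u}) : Prop :=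
  (∀ x ∈ lam, ∃ g ∈ kap, mP x g R) ∧
  (∀ x ∈ lam, ∀ g ∈ kap, ∀ h ∈ kap, mP x g R → mP x h R → g = h) ∧
  (∀ x ∈ lam, ∀ g ∈ kap, mP x g R → (∀ h ∈ g, ZPhi lam kap A4 A5 A6 A7 A8 C R h x) ∧
    ¬ ZPhi lam kap A4 A5 A6 A7 A8 C R g x)

def ZInG (lam A1 A2 A3 A4 C R b z : ZFSet.{u}) : Prop :=
  ∃ x ∈ lam, mP z x A1 ∧ (∀ e ∈ lam, mT z x e A2 → mP e b R) ∧
    ∀ p ∈ lam, ∀ v ∈ lam, mP x p A4 → mP p v C → mT z p v A3

def ZLex (lam A1 A2 A3 A4 C R a b : ZFSet.{u}) : Prop :=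
  ∃ z ∈ lam, ZInG lam A1 A2 A3 A4 C R b z ∧ ¬ ZInG lam A1 A2 A3 A4 C R a z ∧
    ∀ w ∈ z, (ZInG lam A1 A2 A3 A4 C R a w ↔ ZInG lam A1 A2 A3 A4 C R b w)

def Psi (lam kap A1 A2 A3 A4 A5 A6 A7 A8 t0 one zer a b y C R : ZFSet.{u}) : Prop :=
  ZCertC lam A5 C ∧ ZCertR lam kap A4 A5 A6 A7 A8 C R ∧ (∃ g ∈ kap, mP t0 g R ∧ b ∈ g) ∧
    ((y = one ∧ ZLex lam A1 A2 A3 A4 C R a b) ∨ (y = zer ∧ ¬ ZLex lam A1 A2 A3 A4 C R a b))

section
variable {n : ℕ} {lam kap A1 A2 A3 A4 A5 A6 A7 A8 t0 one zer a b y C R e x g z :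
  (Fin n → ZFSet.{u}) → ZFSet.{u}}

theorem D0.zCertC (h1 : IsVar lam) (h2 : IsVar A5) (h3 : IsVar C) :
    D0 (fun v => ZCertC (lam v) (A5 v) (C v)) := by
  unfold ZCertC
  refine D0.and ?_ (D0.and ?_ ?_)
  · refine D0.ball h1 ?_
    refine D0.bex h1.init ?_
    exact D0.memP (IsVar.init .last) .last h3.init.init
  · refine D0.ball h1 ?_
    refine D0.ball h1.init ?_
    refine D0.ball h1.init.init ?_
    refine D0.imp (D0.memP (IsVar.init (IsVar.init .last)) (IsVar.init .last) h3.init.init.init) ?_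
    refine D0.imp (D0.memP (IsVar.init (IsVar.init .last)) .last h3.init.init.init) ?_
    exact D0.eq (IsVar.init .last) .last
  · refine D0.ball h1 ?_
    refine D0.ball h1.init ?_
    refine D0.imp (D0.memP (IsVar.init .last) .last h3.init.init) ?_
    refine D0.ball .last ?_
    refine D0.bex h1.init.init.init ?_
    refine D0.and (D0.memP (IsVar.init (IsVar.init (IsVar.init .last))) .last
      h2.init.init.init.init) ?_
    exact D0.memP .last (IsVar.init .last) h3.init.init.init.init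

theorem D0.zLt (h1 : IsVar lam) (h2 : IsVar A4) (h3 : IsVar A5) (h4 : IsVar C) (h5 : IsVar e)
    (h6 : IsVar x) : D0 (fun v => ZLt (lam v) (A4 v) (A5 v) (C v) (e v) (x v)) := by
  unfold ZLt
  refine D0.ball h1 ?_
  refine D0.ball h1.init ?_
  refine D0.imp (D0.memP h5.init.init (IsVar.init .last) h2.init.init) ?_
  refine D0.imp (D0.memP h6.init.init .last h2.init.init) ?_
  refine D0.imp (D0.memP (IsVar.init .last) .last h3.init.init) ?_
  refine D0.ball h1.init.init ?_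
  refine D0.ball h1.init.init.init ?_
  refine D0.imp (D0.memP (IsVar.init (IsVar.init (IsVar.init .last))) (IsVar.init .last)
    h4.init.init.init.init) ?_
  refine D0.imp (D0.memP (IsVar.init (IsVar.init .last)) .last h4.init.init.init.init) ?_
  exact D0.mem (IsVar.init .last) .last

theorem D0.zPhi (h1 : IsVar lam) (h2 : IsVar kap) (h3 : IsVar A4) (h4 : IsVar A5) (h5 : IsVar A6)
    (h6 : IsVar A7) (h7 : IsVar A8) (h8 : IsVar C) (h9 : IsVar R) (h10 : IsVar g)
    (h11 : IsVar x) : D0 (fun v => ZPhi (lam v) (kap v) (A4 v) (A5 v) (A6 v) (A7 v) (A8 v) (C v)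
      (R v) (g v) (x v)) := by
  unfold ZPhi
  refine D0.bex h1 ?_
  refine D0.and (D0.memP h11.init .last h5.init) ?_
  refine D0.ball h1.init ?_
  refine D0.imp (D0.memP (IsVar.init .last) .last h6.init.init) ?_
  refine D0.bex h1.init.init ?_
  refine D0.and (D0.memP .last (IsVar.init .last) h7.init.init.init) ?_
  refine D0.and (D0.zLt h1.init.init.init h3.init.init.init h4.init.init.init h8.init.init.init
    .last h11.init.init.init) ?_
  refine D0.bex h2.init.init.init ?_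
  refine D0.and (D0.memP (IsVar.init .last) .last h9.init.init.init.init) ?_
  exact D0.not (D0.mem .last h10.init.init.init.init)

theorem D0.zCertR (h1 : IsVar lam) (h2 : IsVar kap) (h3 : IsVar A4) (h4 : IsVar A5) (h5 : IsVar A6)
    (h6 : IsVar A7) (h7 : IsVar A8) (h8 : IsVar C) (h9 : IsVar R) :
    D0 (fun v => ZCertR (lam v) (kap v) (A4 v) (A5 v) (A6 v) (A7 v) (A8 v) (C v) (R v)) := by
  unfold ZCertR
  refine D0.and ?_ (D0.and ?_ ?_)
  · refine D0.ball h1 ?_
    refine D0.bex h2.init ?_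
    exact D0.memP (IsVar.init .last) .last h9.init.init
  · refine D0.ball h1 ?_
    refine D0.ball h2.init ?_
    refine D0.ball h2.init.init ?_
    refine D0.imp (D0.memP (IsVar.init (IsVar.init .last)) (IsVar.init .last) h9.init.init.init) ?_
    refine D0.imp (D0.memP (IsVar.init (IsVar.init .last)) .last h9.init.init.init) ?_
    exact D0.eq (IsVar.init .last) .last
  · refine D0.ball h1 ?_
    refine D0.ball h2.init ?_
    refine D0.imp (D0.memP (IsVar.init .last) .last h9.init.init) ?_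
    refine D0.and ?_ (D0.not ?_)
    · refine D0.ball .last ?_
      exact D0.zPhi h1.init.init.init h2.init.init.init h3.init.init.init h4.init.init.init
        h5.init.init.init h6.init.init.init h7.init.init.init h8.init.init.init h9.init.init.init
        .last (IsVar.init (IsVar.init .last))
    · exact D0.zPhi h1.init.init h2.init.init h3.init.init h4.init.init
        h5.init.init h6.init.init h7.init.init h8.init.init h9.init.init
        .last (IsVar.init .last)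

theorem D0.zInG (h1 : IsVar lam) (h2 : IsVar A1) (h3 : IsVar A2) (h4 : IsVar A3) (h5 : IsVar A4)
    (h6 : IsVar C) (h7 : IsVar R) (h8 : IsVar b) (h9 : IsVar z) :
    D0 (fun v => ZInG (lam v) (A1 v) (A2 v) (A3 v) (A4 v) (C v) (R v) (b v) (z v)) := by
  unfold ZInG
  refine D0.bex h1 ?_
  refine D0.and (D0.memP h9.init .last h2.init) (D0.and ?_ ?_)
  · refine D0.ball h1.init ?_
    refine D0.imp (D0.memT h9.init.init (IsVar.init .last) .last h3.init.init) ?_
    exact D0.memP .last h8.init.init h7.init.init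
  · refine D0.ball h1.init ?_
    refine D0.ball h1.init.init ?_
    refine D0.imp (D0.memP (IsVar.init (IsVar.init .last)) (IsVar.init .last)
      h5.init.init.init) ?_
    refine D0.imp (D0.memP (IsVar.init .last) .last h6.init.init.init) ?_
    exact D0.memT h9.init.init.init (IsVar.init .last) .last h4.init.init.init

theorem D0.zLex (h1 : IsVar lam) (h2 : IsVar A1) (h3 : IsVar A2) (h4 : IsVar A3) (h5 : IsVar A4)
    (h6 : IsVar C) (h7 : IsVar R) (h8 : IsVar a) (h9 : IsVar b) :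
    D0 (fun v => ZLex (lam v) (A1 v) (A2 v) (A3 v) (A4 v) (C v) (R v) (a v) (b v)) := by
  unfold ZLex
  refine D0.bex h1 ?_
  refine D0.and (D0.zInG h1.init h2.init h3.init h4.init h5.init h6.init h7.init h9.init .last)
    (D0.and (D0.not (D0.zInG h1.init h2.init h3.init h4.init h5.init h6.init h7.init h8.init
      .last)) ?_)
  refine D0.ball .last ?_
  exact D0.iff
    (D0.zInG h1.init.init h2.init.init h3.init.init h4.init.init h5.init.init h6.init.init
      h7.init.init h8.init.init .last)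
    (D0.zInG h1.init.init h2.init.init h3.init.init h4.init.init h5.init.init h6.init.init
      h7.init.init h9.init.init .last)

theorem D0.psi (h1 : IsVar lam) (h2 : IsVar kap) (h3 : IsVar A1) (h4 : IsVar A2) (h5 : IsVar A3)
    (h6 : IsVar A4) (h7 : IsVar A5) (h8 : IsVar A6) (h9 : IsVar A7) (h10 : IsVar A8)
    (h11 : IsVar t0) (h12 : IsVar one) (h13 : IsVar zer) (h14 : IsVar a) (h15 : IsVar b)
    (h16 : IsVar y) (h17 : IsVar C) (h18 : IsVar R) :
    D0 (fun v => Psi (lam v) (kap v) (A1 v) (A2 v) (A3 v) (A4 v) (A5 v) (A6 v) (A7 v) (A8 v)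
      (t0 v) (one v) (zer v) (a v) (b v) (y v) (C v) (R v)) := by
  unfold Psi
  refine D0.and (D0.zCertC h1 h7 h17) (D0.and (D0.zCertR h1 h2 h6 h7 h8 h9 h10 h17 h18)
    (D0.and ?_ (D0.or ?_ ?_)))
  · refine D0.bex h2 ?_
    exact D0.and (D0.memP h11.init .last h18.init) (D0.mem h15.init .last)
  · exact D0.and (D0.eq h16 h12) (D0.zLex h1 h3 h4 h5 h6 h17 h18 h14 h15)
  · exact D0.and (D0.eq h16 h13) (D0.not (D0.zLex h1 h3 h4 h5 h6 h17 h18 h14 h15))

end

end Pool.Agent.W5h77.Sg
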