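import Pool.Agent.W5h77.Sg.Psi
import Pool.Agent.W5h77.Sg.Sier

/-!
Evaluation of the `Σ_1`-formula in terms of relations and functions on the well-order
`lam.ord.ToType`.
-/

namespace Pool.Agent.W5h77.Sg

universe u

open Cardinal Ordinal Set

section cod
variable {lam : Cardinal.{u}}

/-- The set coding an element of the well-order. -/
noncomputable def cod (l : lam.ord.ToType) : ZFSet.{u} := (ToType.toOrd l).1.toZFSet

theorem exists_cod {x : ZFSet.{u}} : x ∈ lam.ord.toZFSet ↔ ∃ l : lam.ord.ToType, cod l = x := by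
  rw [mem_toZFSet_iff]
  constructor
  · rintro ⟨a, ha, rfl⟩
    exact ⟨ToType.mk ⟨a, ha⟩, by simp [cod]⟩
  · rintro ⟨l, rfl⟩
    exact ⟨(ToType.toOrd l).1, (ToType.toOrd l).2, rfl⟩

theorem ball_cod {P : ZFSet.{u} → Prop} :
    (∀ x ∈ lam.ord.toZFSet, P x) ↔ ∀ l : lam.ord.ToType, P (cod l) := by
  constructor
  · intro h l
    exact h _ (exists_cod.2 ⟨l, rfl⟩)
  · intro h x hx
    obtain ⟨l, rfl⟩ := exists_cod.1 hx
    exact h l

theorem bex_cod {P : ZFSet.{u} → Prop} :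
    (∃ x ∈ lam.ord.toZFSet, P x) ↔ ∃ l : lam.ord.ToType, P (cod l) := by
  constructor
  · rintro ⟨x, hx, h⟩
    obtain ⟨l, rfl⟩ := exists_cod.1 hx
    exact ⟨l, h⟩
  · rintro ⟨l, h⟩
    exact ⟨_, exists_cod.2 ⟨l, rfl⟩, h⟩

@[simp] theorem cod_inj {a b : lam.ord.ToType} : cod a = cod b ↔ a = b := by
  simp only [cod]
  rw [toZFSet_injective.eq_iff]
  constructor
  · intro h
    exact (ToType.mk (o := lam.ord)).symm.injective (Subtype.ext h)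
  · rintro rfl; rfl

@[simp] theorem cod_mem {a b : lam.ord.ToType} : cod a ∈ cod b ↔ a < b := by
  simp only [cod]
  rw [toZFSet_mem_toZFSet_iff]
  exact (ToType.mk (o := lam.ord)).symm.lt_iff_lt

theorem ball_mem_cod {P : ZFSet.{u} → Prop} {b : lam.ord.ToType} :
    (∀ x ∈ cod b, P x) ↔ ∀ a < b, P (cod a) := by
  constructor
  · intro h a ha
    exact h _ (cod_mem.2 ha)
  · intro h x hx
    have h1 : x ∈ lam.ord.toZFSet := by
      exact (ZFSet.isOrdinal_toZFSet _).mem_trans hx (exists_cod.2 ⟨b, rfl⟩)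
    obtain ⟨a, rfl⟩ := exists_cod.1 h1
    exact h a (cod_mem.1 hx)

theorem ball_ord {κ : Ordinal.{u}} {P : ZFSet.{u} → Prop} :
    (∀ x ∈ κ.toZFSet, P x) ↔ ∀ γ < κ, P γ.toZFSet := by
  constructor
  · intro h γ hγ
    exact h _ (toZFSet_mem_toZFSet_iff.2 hγ)
  · intro h x hx
    obtain ⟨a, ha, rfl⟩ := mem_toZFSet_iff.1 hx
    exact h a ha

theorem bex_ord {κ : Ordinal.{u}} {P : ZFSet.{u} → Prop} :
    (∃ x ∈ κ.toZFSet, P x) ↔ ∃ γ < κ, P γ.toZFSet := by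
  constructor
  · rintro ⟨x, hx, h⟩
    obtain ⟨a, ha, rfl⟩ := mem_toZFSet_iff.1 hx
    exact ⟨a, ha, h⟩
  · rintro ⟨γ, hγ, h⟩
    exact ⟨_, toZFSet_mem_toZFSet_iff.2 hγ, h⟩

/-- A binary relation as a set. -/
noncomputable def rel2 (A : lam.ord.ToType → lam.ord.ToType → Prop) : ZFSet.{u} :=
  ZFSet.range (fun p : {p : lam.ord.ToType × lam.ord.ToType // A p.1 p.2} =>
    ZFSet.pair (cod p.1.1) (cod p.1.2))

/-- A ternary relation as a set. -/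
noncomputable def rel3 (A : lam.ord.ToType → lam.ord.ToType → lam.ord.ToType → Prop) : ZFSet.{u} :=
  ZFSet.range (fun p : {p : lam.ord.ToType × lam.ord.ToType × lam.ord.ToType //
    A p.1 p.2.1 p.2.2} => ZFSet.pair (cod p.1.1) (ZFSet.pair (cod p.1.2.1) (cod p.1.2.2)))

/-- A function into the ordinals as a set. -/
noncomputable def fnO (r : lam.ord.ToType → Ordinal.{u}) : ZFSet.{u} :=
  ZFSet.range (fun x => ZFSet.pair (cod x) (r x).toZFSet)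

@[simp] theorem mem_rel2 {A : lam.ord.ToType → lam.ord.ToType → Prop} {a b : lam.ord.ToType} :
    ZFSet.pair (cod a) (cod b) ∈ rel2 A ↔ A a b := by
  rw [rel2, ZFSet.mem_range]
  constructor
  · rintro ⟨⟨p, hp⟩, h⟩
    rw [ZFSet.pair_inj, cod_inj, cod_inj] at h
    obtain ⟨h1, h2⟩ := h
    rw [← h1, ← h2]; exact hp
  · intro h
    exact ⟨⟨(a, b), h⟩, rfl⟩

@[simp] theorem mem_rel3 {A : lam.ord.ToType → lam.ord.ToType → lam.ord.ToType → Prop}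
    {a b c : lam.ord.ToType} :
    ZFSet.pair (cod a) (ZFSet.pair (cod b) (cod c)) ∈ rel3 A ↔ A a b c := by
  rw [rel3, ZFSet.mem_range]
  constructor
  · rintro ⟨⟨p, hp⟩, h⟩
    rw [ZFSet.pair_inj, ZFSet.pair_inj, cod_inj, cod_inj, cod_inj] at h
    obtain ⟨h1, h2, h3⟩ := h
    rw [← h1, ← h2, ← h3]; exact hp
  · intro h
    exact ⟨⟨(a, b, c), h⟩, rfl⟩

theorem mem_fnO {r : lam.ord.ToType → Ordinal.{u}} {a : lam.ord.ToType} {γ : Ordinal.{u}} :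
    ZFSet.pair (cod a) γ.toZFSet ∈ fnO r ↔ r a = γ := by
  rw [fnO, ZFSet.mem_range]
  constructor
  · rintro ⟨x, h⟩
    rw [ZFSet.pair_inj, cod_inj, toZFSet_injective.eq_iff] at h
    obtain ⟨rfl, h2⟩ := h
    exact h2
  · rintro rfl
    exact ⟨a, rfl⟩

end cod

section L
variable {L : Type u} [LinearOrder L] (A1 : L → L → Prop) (A2 A3 : L → L → L → Prop)
  (A4 A5 A6 A7 A8 : L → L → Prop) (c : L → L) (r : L → Ordinal.{u})

def DCL : Prop := ∀ p v, v < c p → ∃ q, A5 p q ∧ c q = v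

def LtL (e x : L) : Prop := ∀ p q, A4 e p → A4 x q → A5 p q → c p < c q

def PhiL (γ : Ordinal.{u}) (x : L) : Prop :=
  ∃ s, A6 x s ∧ ∀ t, A7 s t → ∃ e, A8 e t ∧ LtL A4 A5 c e x ∧ γ ≤ r e

def RecL : Prop := ∀ x, (∀ γ < r x, PhiL A4 A5 A6 A7 A8 c r γ x) ∧ ¬ PhiL A4 A5 A6 A7 A8 c r (r x) x

def InGL (β : Ordinal.{u}) (z : L) : Prop :=
  ∃ x, A1 z x ∧ (∀ e, A2 z x e → r e = β) ∧ ∀ p, A4 x p → A3 z p (c p)

/-- The statement expressed by the `Σ_1`-formula. -/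
def ColL (κ : Cardinal.{u}) (t0 : L) (α β : Ordinal.{u}) (y : ZFSet.{u}) : Prop :=
  DCL A5 c ∧ RecL A4 A5 A6 A7 A8 c r ∧ (∀ x, r x < κ.ord) ∧ β < r t0 ∧
    ((y = {∅} ∧ LexLt {z | InGL A1 A2 A3 A4 c r α z} {z | InGL A1 A2 A3 A4 c r β z}) ∨
     (y = ∅ ∧ ¬ LexLt {z | InGL A1 A2 A3 A4 c r α z} {z | InGL A1 A2 A3 A4 c r β z}))

end L

section eval
variable {lam : Cardinal.{u}} {A1 A4 A5 A6 A7 A8 : lam.ord.ToType → lam.ord.ToType → Prop}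
  {A2 A3 : lam.ord.ToType → lam.ord.ToType → lam.ord.ToType → Prop}
  {C R : ZFSet.{u}} {c : lam.ord.ToType → lam.ord.ToType} {r : lam.ord.ToType → Ordinal.{u}}
  {κ : Cardinal.{u}}

theorem exists_c (h : ZCertC lam.ord.toZFSet (rel2 A5) C) :
    ∃ c : lam.ord.ToType → lam.ord.ToType, ∀ p v, mP (cod p) (cod v) C ↔ c p = v := by
  obtain ⟨h1, h2, _⟩ := h
  rw [ball_cod] at h1
  have h3 : ∀ p : lam.ord.ToType, ∃ v : lam.ord.ToType, mP (cod p) (cod v) C :=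
    fun p => bex_cod.1 (h1 p)
  choose c hc using h3
  refine ⟨c, fun p v => ⟨fun h4 => ?_, fun h4 => h4 ▸ hc p⟩⟩
  rw [ball_cod] at h2
  have h5 := h2 p
  rw [ball_cod] at h5
  have h6 := h5 (c p)
  rw [ball_cod] at h6
  exact cod_inj.1 (h6 v (hc p) h4)

theorem zCertC_iff (hc : ∀ p v, mP (cod p) (cod v) C ↔ c p = v) :
    ZCertC lam.ord.toZFSet (rel2 A5) C ↔ DCL A5 c := by
  unfold ZCertC DCL
  simp only [ball_cod, bex_cod, ball_mem_cod, hc, mem_rel2, cod_inj]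
  constructor
  · rintro ⟨_, _, h⟩ p v hv
    exact h p _ rfl v hv
  · intro h
    exact ⟨fun p => ⟨_, rfl⟩, fun p v w h1 h2 => h1.symm.trans h2,
      fun p v h1 w hw => h p w (by rwa [h1])⟩

theorem zLt_iff (hc : ∀ p v, mP (cod p) (cod v) C ↔ c p = v) (e x : lam.ord.ToType) :
    ZLt lam.ord.toZFSet (rel2 A4) (rel2 A5) C (cod e) (cod x) ↔ LtL A4 A5 c e x := by
  unfold ZLt LtL
  simp only [ball_cod, hc, mem_rel2, cod_mem]
  constructor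
  · intro h p q h1 h2 h3
    exact h p q h1 h2 h3 _ _ rfl rfl
  · rintro h p q h1 h2 h3 v w rfl rfl
    exact h p q h1 h2 h3

theorem exists_r (h1 : ∀ x ∈ lam.ord.toZFSet, ∃ g ∈ κ.ord.toZFSet, mP x g R)
    (h2 : ∀ x ∈ lam.ord.toZFSet, ∀ g ∈ κ.ord.toZFSet, ∀ h ∈ κ.ord.toZFSet,
      mP x g R → mP x h R → g = h) :
    ∃ r : lam.ord.ToType → Ordinal.{u}, (∀ x, r x < κ.ord) ∧
      ∀ x γ, γ < κ.ord → (mP (cod x) γ.toZFSet R ↔ r x = γ) := by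
  simp only [ball_cod (lam := lam)] at h1 h2
  simp only [ball_ord, bex_ord] at h1 h2
  choose r hr1 hr2 using h1
  refine ⟨r, hr1, fun x γ hγ => ⟨fun h => ?_, fun h => h ▸ hr2 x⟩⟩
  exact toZFSet_injective (h2 x (r x) (hr1 x) γ hγ (hr2 x) h)

theorem zPhi_iff (hc : ∀ p v, mP (cod p) (cod v) C ↔ c p = v) (hr1 : ∀ x, r x < κ.ord)
    (hr2 : ∀ x γ, γ < κ.ord → (mP (cod x) γ.toZFSet R ↔ r x = γ)) (γ : Ordinal.{u})
    (x : lam.ord.ToType) :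
    ZPhi lam.ord.toZFSet κ.ord.toZFSet (rel2 A4) (rel2 A5) (rel2 A6) (rel2 A7) (rel2 A8) C R
      γ.toZFSet (cod x) ↔ PhiL A4 A5 A6 A7 A8 c r γ x := by
  unfold ZPhi PhiL
  simp only [ball_cod (lam := lam), bex_cod (lam := lam), zLt_iff hc, mem_rel2]
  simp only [bex_ord, toZFSet_mem_toZFSet_iff]
  have h1 : ∀ e, (∃ δ < κ.ord, mP (cod e) δ.toZFSet R ∧ ¬ δ < γ) ↔ γ ≤ r e := by
    intro e
    constructor
    · rintro ⟨δ, h1, h2, h3⟩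
      rw [(hr2 e δ h1).1 h2]
      exact not_lt.1 h3
    · intro h
      exact ⟨r e, hr1 e, (hr2 e _ (hr1 e)).2 rfl, not_lt.2 h⟩
  simp only [h1]

theorem zCertR_iff (hc : ∀ p v, mP (cod p) (cod v) C ↔ c p = v) (hr1 : ∀ x, r x < κ.ord)
    (hr2 : ∀ x γ, γ < κ.ord → (mP (cod x) γ.toZFSet R ↔ r x = γ)) :
    ZCertR lam.ord.toZFSet κ.ord.toZFSet (rel2 A4) (rel2 A5) (rel2 A6) (rel2 A7) (rel2 A8) C R
      ↔ RecL A4 A5 A6 A7 A8 c r := by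
  unfold ZCertR RecL
  simp only [ball_cod (lam := lam)]
  simp only [ball_ord, bex_ord, zPhi_iff hc hr1 hr2]
  constructor
  · rintro ⟨_, _, h⟩ x
    exact h x _ (hr1 x) ((hr2 x _ (hr1 x)).2 rfl)
  · intro h
    refine ⟨fun x => ⟨r x, hr1 x, (hr2 x _ (hr1 x)).2 rfl⟩, ?_, ?_⟩
    · intro x γ hγ δ hδ h1 h2
      rw [hr2 x γ hγ] at h1
      rw [hr2 x δ hδ] at h2
      rw [← h1, ← h2]
    · intro x γ hγ h1
      rw [hr2 x γ hγ] at h1
      rw [← h1]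
      exact h x

theorem zInG_iff (hc : ∀ p v, mP (cod p) (cod v) C ↔ c p = v)
    (hr2 : ∀ x γ, γ < κ.ord → (mP (cod x) γ.toZFSet R ↔ r x = γ)) {β : Ordinal.{u}}
    (hβ : β < κ.ord) (z : lam.ord.ToType) :
    ZInG lam.ord.toZFSet (rel2 A1) (rel3 A2) (rel3 A3) (rel2 A4) C R β.toZFSet (cod z) ↔
      InGL A1 A2 A3 A4 c r β z := by
  unfold ZInG InGL
  simp only [ball_cod, bex_cod, mem_rel2, mem_rel3, hc, hr2 _ β hβ]
  constructor
  · rintro ⟨x, h1, h2, h3⟩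
    exact ⟨x, h1, h2, fun p hp => h3 p _ hp rfl⟩
  · rintro ⟨x, h1, h2, h3⟩
    refine ⟨x, h1, h2, ?_⟩
    rintro p v hp rfl
    exact h3 p hp

theorem zLex_iff (hc : ∀ p v, mP (cod p) (cod v) C ↔ c p = v)
    (hr2 : ∀ x γ, γ < κ.ord → (mP (cod x) γ.toZFSet R ↔ r x = γ)) {α β : Ordinal.{u}}
    (hα : α < κ.ord) (hβ : β < κ.ord) :
    ZLex lam.ord.toZFSet (rel2 A1) (rel3 A2) (rel3 A3) (rel2 A4) C R α.toZFSet β.toZFSet ↔
      LexLt {z | InGL A1 A2 A3 A4 c r α z} {z | InGL A1 A2 A3 A4 c r β z} := by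
  unfold ZLex LexLt
  simp only [bex_cod, ball_mem_cod, zInG_iff hc hr2 hα, zInG_iff hc hr2 hβ, mem_ofPred_eq]

theorem psi_iff (t0 : lam.ord.ToType) {α β : Ordinal.{u}} (hα : α < κ.ord) (hβ : β < κ.ord)
    (y : ZFSet.{u}) :
    (∃ C R, Psi lam.ord.toZFSet κ.ord.toZFSet (rel2 A1) (rel3 A2) (rel3 A3) (rel2 A4) (rel2 A5)
      (rel2 A6) (rel2 A7) (rel2 A8) (cod t0) {∅} ∅ α.toZFSet β.toZFSet y C R) ↔
    ∃ c r, ColL A1 A2 A3 A4 A5 A6 A7 A8 c r κ t0 α β y := by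
  have key : ∀ {C R : ZFSet.{u}} {c : lam.ord.ToType → lam.ord.ToType}
      {r : lam.ord.ToType → Ordinal.{u}} (hc : ∀ p v, mP (cod p) (cod v) C ↔ c p = v)
      (hr1 : ∀ x, r x < κ.ord)
      (hr2 : ∀ x γ, γ < κ.ord → (mP (cod x) γ.toZFSet R ↔ r x = γ)),
      Psi lam.ord.toZFSet κ.ord.toZFSet (rel2 A1) (rel3 A2) (rel3 A3) (rel2 A4) (rel2 A5)
      (rel2 A6) (rel2 A7) (rel2 A8) (cod t0) {∅} ∅ α.toZFSet β.toZFSet y C R ↔
      ColL A1 A2 A3 A4 A5 A6 A7 A8 c r κ t0 α β y := by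
    intro C R c r hc hr1 hr2
    unfold Psi ColL
    rw [zCertC_iff hc, zCertR_iff hc hr1 hr2, zLex_iff hc hr2 hα hβ]
    have h1 : (∃ g ∈ κ.ord.toZFSet, mP (cod t0) g R ∧ β.toZFSet ∈ g) ↔ β < r t0 := by
      rw [bex_ord]
      constructor
      · rintro ⟨γ, h1, h2, h3⟩
        rw [(hr2 t0 γ h1).1 h2]
        exact toZFSet_mem_toZFSet_iff.1 h3
      · intro h
        exact ⟨r t0, hr1 t0, (hr2 t0 _ (hr1 t0)).2 rfl, toZFSet_mem_toZFSet_iff.2 h⟩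
    rw [h1]
    constructor
    · rintro ⟨h2, h3, h4, h5⟩
      exact ⟨h2, h3, hr1, h4, h5⟩
    · rintro ⟨h2, h3, _, h4, h5⟩
      exact ⟨h2, h3, h4, h5⟩
  constructor
  · rintro ⟨C, R, h⟩
    obtain ⟨c, hc⟩ := exists_c h.1
    obtain ⟨r, hr1, hr2⟩ := exists_r (κ := κ) h.2.1.1 h.2.1.2.1
    exact ⟨c, r, (key hc hr1 hr2).1 h⟩
  · rintro ⟨c, r, h⟩
    refine ⟨rel2 (fun p v => c p = v), fnO r, (key (fun p v => mem_rel2) h.2.2.1
      (fun x γ _ => mem_fnO)).2 h⟩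

end eval

/-- The `Σ_1`-formula. -/
theorem exists_sig1 : ∃ φ : Sig 1 (4 + 12), ∀ (α β : Ordinal.{u}) (y : ZFSet.{u})
    (κ : Cardinal.{u}) (z : Fin 12 → ZFSet.{u}), Sig.Sat 1 φ (env α β y κ z) ↔
      ∃ C R, Psi (z 0) κ.ord.toZFSet (z 1) (z 2) (z 3) (z 4) (z 5) (z 6) (z 7) (z 8) (z 9) (z 10)
        (z 11) α.toZFSet β.toZFSet y C R := by
  have h1 : D0 (fun w : Fin (4 + 12 + 1) → ZFSet.{u} => ∃ C ∈ w (Fin.last (4 + 12)),
      ∃ R ∈ w (Fin.last (4 + 12)), Psi ((Fin.init w : Fin (4 + 12) → ZFSet.{u}) (Fin.natAdd 4 0))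
        ((Fin.init w : Fin (4 + 12) → ZFSet.{u}) (Fin.castAdd 12 3))
        ((Fin.init w : Fin (4 + 12) → ZFSet.{u}) (Fin.natAdd 4 1))
        ((Fin.init w : Fin (4 + 12) → ZFSet.{u}) (Fin.natAdd 4 2))
        ((Fin.init w : Fin (4 + 12) → ZFSet.{u}) (Fin.natAdd 4 3))
        ((Fin.init w : Fin (4 + 12) → ZFSet.{u}) (Fin.natAdd 4 4))
        ((Fin.init w : Fin (4 + 12) → ZFSet.{u}) (Fin.natAdd 4 5))
        ((Fin.init w : Fin (4 + 12) → ZFSet.{u}) (Fin.natAdd 4 6))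
        ((Fin.init w : Fin (4 + 12) → ZFSet.{u}) (Fin.natAdd 4 7))
        ((Fin.init w : Fin (4 + 12) → ZFSet.{u}) (Fin.natAdd 4 8))
        ((Fin.init w : Fin (4 + 12) → ZFSet.{u}) (Fin.natAdd 4 9))
        ((Fin.init w : Fin (4 + 12) → ZFSet.{u}) (Fin.natAdd 4 10))
        ((Fin.init w : Fin (4 + 12) → ZFSet.{u}) (Fin.natAdd 4 11))
        ((Fin.init w : Fin (4 + 12) → ZFSet.{u}) (Fin.castAdd 12 0))
        ((Fin.init w : Fin (4 + 12) → ZFSet.{u}) (Fin.castAdd 12 1))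
        ((Fin.init w : Fin (4 + 12) → ZFSet.{u}) (Fin.castAdd 12 2)) C R) := by
    have hp : ∀ i : Fin (4 + 12), IsVar (fun w : Fin (4 + 12 + 1 + 1 + 1) → ZFSet.{u} =>
        (Fin.init (Fin.init (Fin.init w)) : Fin (4 + 12) → ZFSet.{u}) i) :=
      fun i => (IsVar.proj i).init.init.init
    refine D0.bex .last ?_
    refine D0.bex (IsVar.init .last) ?_
    exact D0.psi (hp _) (hp _) (hp _) (hp _) (hp _) (hp _) (hp _) (hp _) (hp _) (hp _) (hp _)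
      (hp _) (hp _) (hp _) (hp _) (hp _) (IsVar.init .last) .last
  obtain ⟨ψ, hψ⟩ := h1
  refine ⟨.neg ψ, ?_⟩
  intro α β y κ z
  have h2 : Sig.Sat 1 (.neg ψ : Fml0 (4 + 12 + 1)) (env α β y κ z) ↔
      ∃ x : ZFSet.{u}, ψ.Sat (Fin.snoc (α := fun _ => ZFSet.{u}) (env α β y κ z) x) := by
    simp only [Sig.Sat, Fml0.Sat, not_not]
  rw [h2]
  simp only [hψ, Fin.init_snoc, Fin.snoc_last, env, Fin.append_left, Fin.append_right]
  constructor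
  · rintro ⟨x, C, _, R, _, h⟩
    exact ⟨C, R, h⟩
  · rintro ⟨C, R, h⟩
    exact ⟨{C, R}, C, by simp, R, by simp, h⟩

end Pool.Agent.W5h77.Sg
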