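import Pool.Agent.W5h77.Sg.Ex
import Pool.Agent.W5h77.Sg.Sem

/-!
The well-orders `M` (of length the cofinality) and `L` (of length the cardinal), the sequence `Λ`,
and the enumerations.
-/

namespace Pool.Agent.W5h77.Sg

universe u v w

open Set Cardinal Ordinal

theorem exists_strict_ub {α : Type u} [LinearOrder α] {ι : Type u} (h : ι → α)
    (hι : #ι < Order.cof α) : ∃ b, ∀ x, h x < b := by
  have h1 : ¬ IsCofinal (Set.range h) := fun hc =>
    absurd ((Order.cof_le hc).trans mk_range_le) (not_le.2 hι)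
  obtain ⟨b, hb⟩ := not_isCofinal_iff.1 h1
  exact ⟨b, fun x => hb _ (mem_range_self x)⟩

theorem regIdx {μ : Cardinal.{u}} (h1 : ℵ₀ < μ) (h2 : μ.ord.cof = μ) : RegIdx μ.ord.ToType where
  bdd ι h hι := by
    refine exists_strict_ub h ?_
    rwa [cof_toType, h2, ← mk_ord_toType μ]
  unc := by rwa [mk_ord_toType]
  ini k := by
    have h3 : (Iic k : Set μ.ord.ToType) = insert k (Iio k) := by
      ext x; simp [le_iff_eq_or_lt]
    rw [h3, mk_ord_toType]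
    refine mk_insert_le.trans_lt ?_
    exact add_lt_of_lt h1.le (mk_Iio_toType_ord_lt k) (one_lt_aleph0.trans h1)

theorem exists_cofn {M L : Type u} [LinearOrder M] [WellFoundedLT M] [LinearOrder L]
    [WellFoundedLT L] (hM : RegIdx M) (hc : Order.cof L = #M) (lw : L) (hlw : ℵ₀ ≤ #(Iio lw)) :
    ∃ Λ : M → L, Cofn Λ ∧ ∀ i, ℵ₀ ≤ #(Iio (Λ i)) := by
  obtain ⟨s, hs1, hs2⟩ := Order.exists_cof_eq L
  rw [hc] at hs2
  obtain ⟨e⟩ := Cardinal.eq.1 hs2.symm
  let h : M → L := fun i => e i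
  have hh : ∀ l : L, ∃ i, l ≤ h i := by
    intro l
    obtain ⟨b, hb, hb2⟩ := hs1 l
    refine ⟨e.symm ⟨b, hb⟩, ?_⟩
    simpa [h] using hb2
  have h1 : ∀ i : M, ∃ l, (lw ≤ l ∧ ∀ j < i, h j < l) ∧
      ∀ l', (lw ≤ l' ∧ ∀ j < i, h j < l') → l ≤ l' := by
    intro i
    obtain ⟨b, hb⟩ := exists_strict_ub (fun j : Iio i => h j.1) (by
      rw [hc]
      exact (mk_le_mk_of_subset (fun x hx => le_of_lt hx)).trans_lt (hM.ini i))
    obtain ⟨l, hl1, hl2⟩ := (wellFounded_lt (α := L)).has_min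
      {l | lw ≤ l ∧ ∀ j < i, h j < l} ⟨max lw b, le_max_left _ _,
        fun j hj => lt_max_of_lt_right (hb ⟨j, hj⟩)⟩
    exact ⟨l, hl1, fun l' hl' => not_lt.1 (hl2 l' hl')⟩
  choose Λ hΛ1 hΛ2 using h1
  have hinf : ∀ i, ℵ₀ ≤ #(Iio (Λ i)) := fun i =>
    hlw.trans (mk_le_mk_of_subset (Iio_subset_Iio (hΛ1 i).1))
  have hnm : ∀ i : M, ∃ j, i < j := by
    intro i
    obtain ⟨b, hb⟩ := hM.bdd PUnit (fun _ => i) (by simpa using one_lt_aleph0.trans hM.unc)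
    exact ⟨b, hb ⟨⟩⟩
  refine ⟨Λ, ⟨?_, ?_, ?_, ?_⟩, hinf⟩
  · intro i j hij
    exact hΛ2 i _ ⟨(hΛ1 j).1, fun k hk => (hΛ1 j).2 k (hk.trans_le hij)⟩
  · intro l
    obtain ⟨i, hi⟩ := hh l
    obtain ⟨j, hj⟩ := hnm i
    exact ⟨j, hi.trans_lt ((hΛ1 j).2 i hj)⟩
  · intro i hi l hl
    have h2 : ¬ (lw ≤ l ∧ ∀ j < i, h j < l) := fun hcon => absurd hl (not_lt.2 (hΛ2 i l hcon))
    by_cases h3 : lw ≤ l
    · have h4 : ∃ j < i, l ≤ h j := by
        by_contra hcon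
        push Not at hcon
        exact h2 ⟨h3, hcon⟩
      obtain ⟨j, hj1, hj2⟩ := h4
      have h5 : ∃ k < i, j < k := by
        by_contra hcon
        push Not at hcon
        exact hi.2 ⟨j, hj1, hcon⟩
      obtain ⟨k, hk1, hk2⟩ := h5
      exact ⟨k, hk1, hj2.trans_lt ((hΛ1 k).2 j hk2)⟩
    · obtain ⟨k, hk⟩ := hi.1
      exact ⟨k, hk, (not_le.1 h3).trans_le (hΛ1 k).1⟩
  · have h2 : (Iio lw).Nonempty := by
      by_contra hcon
      rw [not_nonempty_iff_eq_empty] at hcon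
      rw [hcon] at hlw
      simp only [mk_emptyCollection, nonpos_iff_eq_zero] at hlw
      exact absurd hlw aleph0_ne_zero
    obtain ⟨l, hl⟩ := h2
    exact ⟨l, fun i => hl.trans_le (hΛ1 i).1⟩

theorem exists_lw {lam : Cardinal.{u}} (h : ℵ₀ < lam) :
    ∃ l : lam.ord.ToType, ℵ₀ ≤ #(Iio l) := by
  have h1 : ω < lam.ord := by
    rw [← ord_aleph0]
    exact ord_strictMono h
  refine ⟨ToType.mk ⟨ω, h1⟩, ?_⟩
  have h2 : #(Iio (ToType.mk ⟨ω, h1⟩ : lam.ord.ToType)) =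
      card (typein (α := lam.ord.ToType) (· < ·) (ToType.mk ⟨ω, h1⟩)) := rfl
  rw [h2]
  have h3 : typein (α := lam.ord.ToType) (· < ·) (ToType.mk ⟨ω, h1⟩) = ω := by
    simp [ToType.mk]
  rw [h3, card_omega0]

/-- Enumerations. -/
theorem exists_surj {α β : Type u} [Nonempty β] (h : #β ≤ #α) :
    ∃ f : α → β, Function.Surjective f := by
  obtain ⟨e⟩ := h
  exact ⟨Function.invFun e, Function.invFun_surjective e.injective⟩

theorem exists_points {M L : Type u} [LinearOrder M] [WellFoundedLT M] [LinearOrder L]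
    {Λ : M → L} (hΛ : Cofn Λ) (hM : #M ≤ #L) (hL : ℵ₀ ≤ #L) :
    Nonempty (L ≃ Σ i, Iio (Λ i)) := by
  rw [← Cardinal.eq]
  apply le_antisymm
  · choose f hf using hΛ.cof
    refine mk_le_of_injective (f := fun l => (⟨f l, ⟨l, hf l⟩⟩ : Σ i, Iio (Λ i))) ?_
    intro a b hab
    have h1 := congrArg (fun x : Σ i, Iio (Λ i) => (x.2 : L)) hab
    exact h1
  · rw [mk_sigma]
    refine (Cardinal.sum_le_sum _ (fun _ : M => #L) fun i => mk_subtype_le _).trans ?_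
    rw [sum_const']
    exact (mul_le_mul' hM le_rfl).trans (by rw [mul_eq_self hL])

theorem mk_PD {M L : Type u} [LinearOrder M] [WellFoundedLT M] [LinearOrder L]
    {Λ : M → L} {H : ∀ j : M, Set (M → Iio (Λ j))} (hM : #(Set M) ≤ #L) (hL : ℵ₀ ≤ #L)
    (hH : ∀ j, #(H j) ≤ #L) : #(PD Λ H) ≤ #L := by
  rw [mk_sigma]
  refine (Cardinal.sum_le_sum _ (fun _ : M => #L) fun i => ?_).trans ?_
  · rw [mk_prod, Cardinal.lift_id, Cardinal.lift_id]
    refine (mul_le_mul' ((mk_subtype_le _).trans hM) (hH i)).trans ?_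
    rw [mul_eq_self hL]
  · rw [sum_const']
    refine le_trans (mul_le_mul' (b := #L) ?_ le_rfl) (by rw [mul_eq_self hL])
    refine le_trans ?_ hM
    rw [mk_set]
    exact (cantor _).le

/-- Reindexing pieces. -/
def Pieces.comap {M : Type u} {I : Set (Set M)} {Q : M → Type u} {D : Type v} {D' : Type w}
    (S : Pieces I Q D) (f : D' → D) (hf : Function.Surjective f) : Pieces I Q D' where
  dom d := S.dom (f d)
  val d := S.val (f d)
  pos d := S.pos _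
  restr d Z h1 h2 := by
    obtain ⟨d', h3, h4⟩ := S.restr (f d) Z h1 h2
    obtain ⟨e, rfl⟩ := hf d'
    exact ⟨e, h3, h4⟩
  part X δ := by
    obtain ⟨C, hC, hP⟩ := S.part X δ
    refine ⟨C, hC, ?_⟩
    intro Y hY
    obtain ⟨d', h3, h4⟩ := hP Y hY
    obtain ⟨e, rfl⟩ := hf d'
    exact ⟨e, h3, h4⟩

end Pool.Agent.W5h77.Sg
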